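import Pool.Agent.U131.RD.Walk

open Set Filter Topology Monoid

namespace Pool.Agent.U131.RD

section
variable {G : Type*} [Group G] (ν : G →₀ ℝ)

lemma l2_bound (hν : ∀ x, 0 ≤ ν x) (h1 : ν.sum (fun _ a => a) = 1) (g : G →₀ ℝ) (T : Finset G) :
    ∑ x ∈ T, (ν.sum (fun y a => a * g (y⁻¹ * x))) ^ 2 ≤ g.sum (fun _ a => a ^ 2) := by
  classical
  have hcs : ∀ x, (ν.sum (fun y a => a * g (y⁻¹ * x))) ^ 2 ≤
      ∑ y ∈ ν.support, ν y * g (y⁻¹ * x) ^ 2 := by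
    intro x
    unfold Finsupp.sum at h1 ⊢
    have h := Finset.sum_mul_sq_le_sq_mul_sq ν.support (fun y => √(ν y)) (fun y => √(ν y) * g (y⁻¹ * x))
    have e1 : ∀ y ∈ ν.support, √(ν y) * (√(ν y) * g (y⁻¹ * x)) = ν y * g (y⁻¹ * x) := by
      intro y _
      rw [← mul_assoc, Real.mul_self_sqrt (hν y)]
    have e2 : ∀ y ∈ ν.support, √(ν y) ^ 2 = ν y := fun y _ => Real.sq_sqrt (hν y)
    have e3 : ∀ y ∈ ν.support, (√(ν y) * g (y⁻¹ * x)) ^ 2 = ν y * g (y⁻¹ * x) ^ 2 := by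
      intro y _
      rw [mul_pow, Real.sq_sqrt (hν y)]
    rw [Finset.sum_congr rfl e1, Finset.sum_congr rfl e2, Finset.sum_congr rfl e3, h1, one_mul] at h
    exact h
  calc ∑ x ∈ T, (ν.sum (fun y a => a * g (y⁻¹ * x))) ^ 2
      ≤ ∑ x ∈ T, ∑ y ∈ ν.support, ν y * g (y⁻¹ * x) ^ 2 := Finset.sum_le_sum (fun x _ => hcs x)
    _ = ∑ y ∈ ν.support, ν y * ∑ x ∈ T, g (y⁻¹ * x) ^ 2 := by
        rw [Finset.sum_comm]
        apply Finset.sum_congr rfl
        intro y _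
        rw [Finset.mul_sum]
    _ ≤ ∑ y ∈ ν.support, ν y * g.sum (fun _ a => a ^ 2) := by
        apply Finset.sum_le_sum
        intro y _
        apply mul_le_mul_of_nonneg_left _ (hν y)
        unfold Finsupp.sum
        have h2 : ∑ x ∈ T, g (y⁻¹ * x) ^ 2 = ∑ z ∈ T.image (fun x => y⁻¹ * x), g z ^ 2 := by
          rw [Finset.sum_image]
          intro a _ b _ h
          simpa using h
        rw [h2]
        have h3 : ∑ z ∈ T.image (fun x => y⁻¹ * x), g z ^ 2 =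
            ∑ z ∈ (T.image (fun x => y⁻¹ * x)).filter (fun z => z ∈ g.support), g z ^ 2 := by
          symm
          apply Finset.sum_filter_of_ne
          intro z _ hz
          rw [Finsupp.mem_support_iff]
          intro h0
          apply hz
          rw [h0]; norm_num
        rw [h3]
        apply Finset.sum_le_sum_of_subset_of_nonneg
        · intro z hz
          exact (Finset.mem_filter.mp hz).2
        · intro z _ _
          exact sq_nonneg _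
    _ = g.sum (fun _ a => a ^ 2) := by
        rw [← Finset.sum_mul]
        unfold Finsupp.sum at h1 ⊢
        rw [h1, one_mul]

theorem exists_rho (hν : ∀ x, 0 ≤ ν x) (h1 : ν.sum (fun _ a => a) = 1) : ∃ ρ : ℝ, 0 ≤ ρ ∧
    (∀ g : G →₀ ℝ, ∀ T : Finset G, ∑ x ∈ T, (ν.sum (fun y a => a * g (y⁻¹ * x))) ^ 2 ≤
      ρ ^ 2 * g.sum (fun _ a => a ^ 2)) ∧
    (∀ r : ℝ, 0 ≤ r → r < ρ → ∃ g : G →₀ ℝ, ∃ T : Finset G, r ^ 2 * g.sum (fun _ a => a ^ 2) <
      ∑ x ∈ T, (ν.sum (fun y a => a * g (y⁻¹ * x))) ^ 2) := by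
  set P : Set ℝ := {ρ | 0 ≤ ρ ∧ ∀ g : G →₀ ℝ, ∀ T : Finset G,
    ∑ x ∈ T, (ν.sum (fun y a => a * g (y⁻¹ * x))) ^ 2 ≤ ρ ^ 2 * g.sum (fun _ a => a ^ 2)} with hP
  have hne : P.Nonempty := ⟨1, zero_le_one, fun g T => by
    rw [one_pow, one_mul]; exact l2_bound ν hν h1 g T⟩
  have hbdd : BddBelow P := ⟨0, fun ρ hρ => hρ.1⟩
  have hcl : IsClosed P := by
    have : P = Ici 0 ∩ ⋂ g : G →₀ ℝ, ⋂ T : Finset G,
        {ρ : ℝ | ∑ x ∈ T, (ν.sum (fun y a => a * g (y⁻¹ * x))) ^ 2 ≤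
          ρ ^ 2 * g.sum (fun _ a => a ^ 2)} := by
      ext ρ
      simp [hP]
    rw [this]
    refine isClosed_Ici.inter (isClosed_iInter fun g => isClosed_iInter fun T => ?_)
    exact isClosed_le continuous_const (by fun_prop)
  have hmem := hcl.csInf_mem hne hbdd
  refine ⟨sInf P, hmem.1, hmem.2, ?_⟩
  intro r hr hlt
  have hn : r ∉ P := fun h => not_lt.mpr (csInf_le hbdd h) hlt
  rw [hP, mem_ofPred_eq] at hn
  push Not at hn
  exact hn hr

end

end Pool.Agent.U131.RD
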