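import Pool.Agent.U131.RD.Factor

open Set Filter Topology

namespace Pool.Agent.U131.RD

/-! ### elementary estimates -/

/-- second order remainder of a power -/
noncomputable def fm (m : ℕ) (u : ℝ) : ℝ := (1 - u) ^ m - 1 + m * u

lemma fm_succ (m : ℕ) (u : ℝ) : fm (m + 1) u = (1 - u) * fm m u + m * u ^ 2 := by
  unfold fm
  push_cast
  ring

lemma fm_nonneg (m : ℕ) {u : ℝ} (h1 : u ≤ 1) : 0 ≤ fm m u := by
  induction m with
  | zero => simp [fm]
  | succ m ih =>
    rw [fm_succ]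
    have : 0 ≤ 1 - u := by linarith
    positivity

lemma fm_le_sq (m : ℕ) {u : ℝ} (h0 : 0 ≤ u) (h1 : u ≤ 1) : fm m u ≤ (m * u) ^ 2 := by
  induction m with
  | zero => simp [fm]
  | succ m ih =>
    rw [fm_succ]
    have h2 : (1 - u) * fm m u ≤ 1 * (m * u) ^ 2 :=
      mul_le_mul (by linarith) ih (fm_nonneg m h1) zero_le_one
    push_cast
    have h3 : (0:ℝ) ≤ m := Nat.cast_nonneg m
    nlinarith [mul_nonneg h3 (sq_nonneg u), sq_nonneg u]

lemma fm_le (m : ℕ) {u : ℝ} (h0 : 0 ≤ u) (h1 : u ≤ 1) : fm m u ≤ m * u := by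
  unfold fm
  have : (1 - u) ^ m ≤ 1 := pow_le_one₀ (by linarith) (by linarith)
  linarith

lemma fm_ge (m : ℕ) {u : ℝ} (h0 : 0 ≤ u) (h1 : u ≤ 1) :
    (m * (m - 1) / 2 : ℝ) * u ^ 2 * (1 - u) ^ m ≤ fm m u := by
  induction m with
  | zero => simp [fm]
  | succ m ih =>
    rw [fm_succ]
    have h2 : (1 - u) * ((m * (m - 1) / 2 : ℝ) * u ^ 2 * (1 - u) ^ m) ≤ (1 - u) * fm m u :=
      mul_le_mul_of_nonneg_left ih (by linarith)
    have h3 : (1 - u) ^ (m + 1) ≤ 1 := pow_le_one₀ (by linarith) (by linarith)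
    have h4 : (0:ℝ) ≤ m * u ^ 2 := by positivity
    have h5 : (m * u ^ 2 : ℝ) * (1 - u) ^ (m + 1) ≤ m * u ^ 2 * 1 :=
      mul_le_mul_of_nonneg_left h3 h4
    push_cast
    calc ((m + 1 : ℝ) * (m + 1 - 1) / 2) * u ^ 2 * (1 - u) ^ (m + 1)
        = (1 - u) * ((m * (m - 1) / 2 : ℝ) * u ^ 2 * (1 - u) ^ m) +
          (m * u ^ 2 : ℝ) * (1 - u) ^ (m + 1) := by rw [pow_succ]; ring
      _ ≤ _ := by linarith

lemma fm_le_rpow (m : ℕ) {u δ : ℝ} (h0 : 0 ≤ u) (h1 : u ≤ 1) (hδ : 0 < δ) (hδ1 : δ ≤ 1) :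
    fm m u ≤ (m * u) ^ (2 - δ) := by
  have ht : 0 ≤ m * u := by positivity
  rcases le_total (m * u) 1 with h | h
  · refine (fm_le_sq m h0 h1).trans ?_
    rw [← Real.rpow_natCast]
    rcases eq_or_lt_of_le ht with h2 | h2
    · rw [← h2, Real.zero_rpow (by norm_num), Real.zero_rpow (by linarith)]
    · apply Real.rpow_le_rpow_of_exponent_ge h2 h
      push_cast
      linarith
  · refine (fm_le m h0 h1).trans ?_
    conv_lhs => rw [← Real.rpow_one (m * u)]
    exact Real.rpow_le_rpow_of_exponent_le h (by linarith)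

/-! ### the function `g` near one -/

/-- the derivative at one -/
noncomputable def gd : ℝ := ∑' n, p n * (2 * n)

lemma gd_summable : Summable (fun n => p n * (2 * (n : ℝ))) := by
  have h : Summable (fun n : ℕ => 1 / (n : ℝ) ^ 2) := Real.summable_one_div_nat_pow.mpr (by norm_num)
  refine Summable.of_nonneg_of_le (fun n => mul_nonneg (p_nonneg n) (by positivity))
    (fun n => ?_) h
  rcases Nat.eq_zero_or_pos n with hn | hn
  · subst hn; simp
  · have hn' : (0:ℝ) < n := by exact_mod_cast hn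
    calc p n * (2 * (n : ℝ)) ≤ 1 / (2 * (n:ℝ) + 1) ^ 3 * (2 * (n : ℝ)) := by
          gcongr; exact p_le n
      _ ≤ 1 / (2 * (n:ℝ)) ^ 3 * (2 * (n : ℝ)) := by
          gcongr; linarith
      _ = 1 / (4 * (n:ℝ) ^ 2) := by field_simp; ring
      _ ≤ 1 / (n:ℝ) ^ 2 := by gcongr; nlinarith

lemma gd_nonneg : 0 ≤ gd := tsum_nonneg (fun n => mul_nonneg (p_nonneg n) (by positivity))

/-- the second order remainder of `g` at one -/
noncomputable def R (u : ℝ) : ℝ := ∑' n, p n * fm (2 * n) u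

lemma R_summable {u : ℝ} (h0 : 0 ≤ u) (h1 : u ≤ 1) : Summable (fun n => p n * fm (2 * n) u) := by
  refine Summable.of_nonneg_of_le (fun n => mul_nonneg (p_nonneg n) (fm_nonneg _ h1))
    (fun n => ?_) gd_summable
  refine mul_le_mul_of_nonneg_left ?_ (p_nonneg n)
  refine (fm_le _ h0 h1).trans ?_
  push_cast
  have : (0:ℝ) ≤ 2 * n := by positivity
  nlinarith

lemma R_nonneg {u : ℝ} (h1 : u ≤ 1) : 0 ≤ R u :=
  tsum_nonneg (fun n => mul_nonneg (p_nonneg n) (fm_nonneg _ h1))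

lemma g_eq {u : ℝ} (h0 : 0 ≤ u) (h1 : u ≤ 1) : g (1 - u) = g 1 - gd * u + R u := by
  have s1 := g_summable (w := 1 - u) (by linarith) (by linarith)
  have s2 := g_summable (w := 1) zero_le_one le_rfl
  have s3 := gd_summable.mul_right u
  have s4 := R_summable h0 h1
  unfold g gd R
  rw [← tsum_mul_right, ← s2.tsum_sub s3, ← (s2.sub s3).tsum_add s4]
  apply tsum_congr
  intro n
  unfold fm
  push_cast
  ring

lemma R_large (K : ℝ) : ∃ u0 : ℝ, 0 < u0 ∧ u0 ≤ 1 ∧ ∀ u, 0 < u → u < u0 → K * u ^ 2 ≤ R u := by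
  have hdiv : Tendsto (fun n : ℕ => ∑ i ∈ Finset.range n, (1 / ((i : ℝ) + 1))) atTop atTop :=
    Real.tendsto_sum_range_one_div_nat_succ_atTop
  obtain ⟨M, hM⟩ := (hdiv.eventually_ge_atTop (128 * K)).exists
  refine ⟨1 / (4 * (M + 1)), by positivity, ?_, ?_⟩
  · rw [div_le_one (by positivity)]
    have : (0:ℝ) ≤ M := Nat.cast_nonneg M
    linarith
  · intro u h0 h1
    have hu1 : u ≤ 1 := by
      refine h1.le.trans ?_
      rw [div_le_one (by positivity)]
      have : (0:ℝ) ≤ M := Nat.cast_nonneg M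
      linarith
    have hMu : 4 * (M + 1 : ℝ) * u ≤ 1 := by
      rw [lt_div_iff₀ (by positivity)] at h1
      linarith
    unfold R
    refine le_trans ?_ ((R_summable h0.le hu1).sum_le_tsum (Finset.image (fun i => i + 1) (Finset.range M))
      (fun n _ => mul_nonneg (p_nonneg n) (fm_nonneg _ hu1)))
    rw [Finset.sum_image (by intro a _ b _ h; simpa using h)]
    have hterm : ∀ i ∈ Finset.range M, (1 / 128 : ℝ) * (1 / ((i : ℝ) + 1)) * u ^ 2 ≤
        p (i + 1) * fm (2 * (i + 1)) u := by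
      intro i hi
      rw [Finset.mem_range] at hi
      have hi' : (i : ℝ) + 1 ≤ M := by exact_mod_cast hi
      have h2 := fm_ge (2 * (i + 1)) h0.le hu1
      have h3 : (1 / 2 : ℝ) ≤ (1 - u) ^ (2 * (i + 1)) := by
        have := fm_nonneg (2 * (i + 1)) hu1
        unfold fm at this
        push_cast at this
        have h4 : 2 * ((i : ℝ) + 1) * u ≤ 1 / 2 := by
          have : ((i : ℝ) + 1) * u ≤ (M + 1) * u := by
            apply mul_le_mul_of_nonneg_right _ h0.le
            linarith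
          nlinarith
        linarith
      have h5 := le_p (i + 1) (by omega)
      push_cast at h2 h5
      have hi0 : (0 : ℝ) ≤ i := Nat.cast_nonneg i
      have h6 : ((i : ℝ) + 1) ^ 2 / 2 * u ^ 2 ≤ fm (2 * (i + 1)) u := by
        refine le_trans ?_ h2
        have h7 : ((i : ℝ) + 1) ^ 2 ≤ 2 * (i + 1) * (2 * (i + 1) - 1) / 2 := by nlinarith
        calc ((i : ℝ) + 1) ^ 2 / 2 * u ^ 2 = ((i : ℝ) + 1) ^ 2 * u ^ 2 * (1 / 2) := by ring
          _ ≤ (2 * (i + 1) * (2 * (i + 1) - 1) / 2) * u ^ 2 * (1 - u) ^ (2 * (i + 1)) := by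
            apply mul_le_mul _ h3 (by norm_num)
            · have : 0 ≤ 2 * ((i : ℝ) + 1) * (2 * (i + 1) - 1) / 2 := le_trans (by positivity) h7
              positivity
            · exact mul_le_mul_of_nonneg_right h7 (sq_nonneg u)
      calc (1 / 128 : ℝ) * (1 / ((i : ℝ) + 1)) * u ^ 2
          = 1 / (64 * ((i : ℝ) + 1) ^ 3) * (((i : ℝ) + 1) ^ 2 / 2 * u ^ 2) := by
            field_simp; norm_num
        _ ≤ p (i + 1) * fm (2 * (i + 1)) u := by gcongr; exact p_nonneg _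
    refine le_trans ?_ (Finset.sum_le_sum hterm)
    rw [← Finset.sum_mul, ← Finset.mul_sum]
    nlinarith [sq_nonneg u]

lemma R_small {δ : ℝ} (hδ : 0 < δ) (hδ1 : δ ≤ 1) : ∃ C : ℝ, 0 ≤ C ∧
    ∀ u, 0 ≤ u → u ≤ 1 → R u ≤ C * u ^ (2 - δ) := by
  have hs : Summable (fun n : ℕ => 1 / (n : ℝ) ^ (1 + δ)) :=
    Real.summable_one_div_nat_rpow.mpr (by linarith)
  refine ⟨∑' n : ℕ, 1 / (n : ℝ) ^ (1 + δ), tsum_nonneg (fun n => by positivity), ?_⟩
  intro u h0 h1
  unfold R
  rw [← tsum_mul_right]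
  refine (R_summable h0 h1).tsum_le_tsum (fun n => ?_) (hs.mul_right _)
  rcases Nat.eq_zero_or_pos n with hn | hn
  · subst hn
    have : fm (2 * 0) u = 0 := by simp [fm]
    rw [this, mul_zero]
    positivity
  · have hn' : (0:ℝ) < n := by exact_mod_cast hn
    have h2 := fm_le_rpow (2 * n) h0 h1 hδ hδ1
    have h3 : ((2 * n : ℕ) : ℝ) = 2 * n := by push_cast; ring
    rw [h3, Real.mul_rpow (by positivity) h0] at h2
    have h4 : p n * (2 * (n:ℝ)) ^ (2 - δ) ≤ 1 / (n : ℝ) ^ (1 + δ) := by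
      calc p n * (2 * (n:ℝ)) ^ (2 - δ) ≤ 1 / (2 * (n:ℝ) + 1) ^ 3 * (2 * (n:ℝ)) ^ (2 - δ) := by
            gcongr; exact p_le n
        _ ≤ 1 / (2 * (n:ℝ)) ^ 3 * (2 * (n:ℝ)) ^ (2 - δ) := by gcongr; linarith
        _ = 1 / (2 * (n:ℝ)) ^ (1 + δ) := by
            have h5 : (2 * (n:ℝ)) ^ (3:ℕ) = (2 * (n:ℝ)) ^ (2 - δ) * (2 * (n:ℝ)) ^ (1 + δ) := by
              rw [← Real.rpow_add (by positivity), ← Real.rpow_natCast]
              congr 1
              push_cast
              ring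
            rw [h5]
            have : (0:ℝ) < (2 * (n:ℝ)) ^ (2 - δ) := by positivity
            field_simp
        _ ≤ 1 / (n : ℝ) ^ (1 + δ) := by
            gcongr
            linarith
    calc p n * fm (2 * n) u ≤ p n * ((2 * (n:ℝ)) ^ (2 - δ) * u ^ (2 - δ)) := by
          gcongr; exact p_nonneg n
      _ = (p n * (2 * (n:ℝ)) ^ (2 - δ)) * u ^ (2 - δ) := by ring
      _ ≤ _ := by gcongr

/-- `g` is smaller than its value at one plus derivative -/
lemma g1_sq_lt : g 1 ^ 2 < g 1 + gd := by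
  set t : ℝ := ∑' n : ℕ, p (n + 1) with ht
  have h1 : g 1 = 1 + t := by
    unfold g
    simp only [one_pow, mul_one]
    rw [p_summable.tsum_eq_zero_add, p_zero]
  have hs1 : Summable (fun n : ℕ => p (n + 1)) := (summable_nat_add_iff 1).mpr p_summable
  have h2 : 2 * t ≤ gd := by
    unfold gd
    rw [gd_summable.tsum_eq_zero_add, ht, ← tsum_mul_left]
    simp only [CharP.cast_eq_zero, mul_zero, zero_add]
    refine (hs1.mul_left 2).tsum_le_tsum (fun n => ?_) ((summable_nat_add_iff 1).mpr gd_summable)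
    have := p_nonneg (n + 1)
    push_cast
    have h3 : (0:ℝ) ≤ n := Nat.cast_nonneg n
    nlinarith [mul_nonneg this h3]
  have h3 : 0 < t := by
    have := hs1.sum_le_tsum {0} (fun n _ => p_nonneg _)
    simp only [Finset.sum_singleton, zero_add, p_one] at this
    linarith
  have h4 : t ≤ 1 / 12 := by
    rw [ht]
    refine Real.tsum_le_of_sum_range_le (fun n => p_nonneg _) (fun n => ?_)
    have hb : ∑ i ∈ Finset.range n, p (i + 1) ≤ (1 / 12 : ℝ) * (1 - 1 / ((n : ℝ) + 1)) := by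
      induction n with
      | zero => simp
      | succ n ih =>
        rw [Finset.sum_range_succ]
        have h5 := p_le (n + 1)
        push_cast at h5 ⊢
        have hn : (0:ℝ) ≤ n := Nat.cast_nonneg n
        have h6 : 1 / (2 * ((n : ℝ) + 1) + 1) ^ 3 ≤
            (1 / 12 : ℝ) * (1 / ((n : ℝ) + 1) - 1 / ((n : ℝ) + 1 + 1)) := by
          have h7 : (1 / 12 : ℝ) * (1 / ((n : ℝ) + 1) - 1 / ((n : ℝ) + 1 + 1)) =
              1 / (12 * (((n : ℝ) + 1) * ((n : ℝ) + 1 + 1))) := by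
            field_simp
            ring
          rw [h7]
          apply one_div_le_one_div_of_le (by positivity)
          nlinarith [mul_nonneg hn hn, mul_nonneg (mul_nonneg hn hn) hn]
        linarith
    refine hb.trans ?_
    have : 0 ≤ 1 / ((n : ℝ) + 1) := by positivity
    linarith
  rw [h1]
  nlinarith

end Pool.Agent.U131.RD
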