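import Pool.Agent.U131.RD.Final

open Set Monoid

namespace Pool.Agent.U131.RD

open Pool.Agent.Helper509.RD

/-- convolution -/
def conv {G : Type*} [Group G] (ν : G →₀ ℝ) (h : G → ℝ) (x : G) : ℝ :=
  ν.sum (fun y a => a * h (y⁻¹ * x))

section conv
variable {G : Type*} [Group G] (ν : G →₀ ℝ)

lemma conv_mono (hν : ∀ x, 0 ≤ ν x) {h k : G → ℝ} (hk : ∀ x, h x ≤ k x) (x : G) :
    conv ν h x ≤ conv ν k x := by
  unfold conv Finsupp.sum
  apply Finset.sum_le_sum
  intro y _
  exact mul_le_mul_of_nonneg_left (hk _) (hν y)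

lemma conv_smul (c : ℝ) (h : G → ℝ) (x : G) : conv ν (fun y => c * h y) x = c * conv ν h x := by
  unfold conv Finsupp.sum
  rw [Finset.mul_sum]
  apply Finset.sum_congr rfl
  intro y _
  ring

lemma conv_add (h k : G → ℝ) (x : G) : conv ν (fun y => h y + k y) x = conv ν h x + conv ν k x := by
  unfold conv Finsupp.sum
  rw [← Finset.sum_add_distrib]
  apply Finset.sum_congr rfl
  intro y _
  ring

lemma conv_sub (h k : G → ℝ) (x : G) : conv ν (fun y => h y - k y) x = conv ν h x - conv ν k x := by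
  unfold conv Finsupp.sum
  rw [← Finset.sum_sub_distrib]
  apply Finset.sum_congr rfl
  intro y _
  ring

lemma conv_const (h1 : ν.sum (fun _ a => a) = 1) (c : ℝ) (x : G) : conv ν (fun _ => c) x = c := by
  unfold conv Finsupp.sum
  unfold Finsupp.sum at h1
  rw [← Finset.sum_mul, h1, one_mul]

lemma conv_sum {ι : Type*} (s : Finset ι) (h : ι → G → ℝ) (x : G) :
    conv ν (fun y => ∑ i ∈ s, h i y) x = ∑ i ∈ s, conv ν (h i) x := by
  unfold conv Finsupp.sum
  rw [Finset.sum_comm]
  apply Finset.sum_congr rfl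
  intro y _
  simp only
  rw [Finset.mul_sum]

end conv

/-- the delta function at the identity -/
noncomputable def dl {G : Type*} [Group G] : G → ℝ := Set.indicator ({1} : Set G) (fun _ => (1 : ℝ))

lemma dl_one {G : Type*} [Group G] : (dl : G → ℝ) 1 = 1 := by simp [dl]
lemma dl_ne {G : Type*} [Group G] {x : G} (h : x ≠ 1) : (dl : G → ℝ) x = 0 := by simp [dl, h]
lemma dl_nonneg {G : Type*} [Group G] (x : G) : 0 ≤ (dl : G → ℝ) x := by
  unfold dl
  exact Set.indicator_nonneg (fun _ _ => zero_le_one) x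

section iter
variable {G : Type*} [Group G] (ν : G →₀ ℝ)

lemma iter_nonneg (hν : ∀ x, 0 ≤ ν x) {h : G → ℝ} (hh : ∀ x, 0 ≤ h x) (n : ℕ) (x : G) :
    0 ≤ ((conv ν)^[n] h) x := by
  induction n generalizing x with
  | zero => exact hh x
  | succ n ih =>
    rw [Function.iterate_succ_apply']
    unfold conv Finsupp.sum
    exact Finset.sum_nonneg (fun y _ => mul_nonneg (hν y) (ih _))

lemma iter_mono (hν : ∀ x, 0 ≤ ν x) {h k : G → ℝ} (hk : ∀ x, h x ≤ k x) (n : ℕ) (x : G) :
    ((conv ν)^[n] h) x ≤ ((conv ν)^[n] k) x := by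
  induction n generalizing x with
  | zero => exact hk x
  | succ n ih =>
    rw [Function.iterate_succ_apply', Function.iterate_succ_apply']
    exact conv_mono ν hν ih x

lemma iter_smul (c : ℝ) (h : G → ℝ) (n : ℕ) (x : G) :
    ((conv ν)^[n] (fun y => c * h y)) x = c * ((conv ν)^[n] h) x := by
  induction n generalizing x with
  | zero => rfl
  | succ n ih =>
    rw [Function.iterate_succ_apply', Function.iterate_succ_apply']
    have : (conv ν)^[n] (fun y => c * h y) = fun y => c * ((conv ν)^[n] h) y := funext ih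
    rw [this, conv_smul]

/-- iteration of the resolvent equation -/
lemma iter_eq {h : G → ℝ} {lam : ℝ} (hh : ∀ x, conv ν h x = lam * h x - lam * dl x) (N : ℕ) (x : G) :
    ((conv ν)^[N] h) x = lam ^ N * h x -
      ∑ n ∈ Finset.range N, lam ^ (N - n) * ((conv ν)^[n] dl) x := by
  induction N generalizing x with
  | zero => simp
  | succ N ih =>
    rw [Function.iterate_succ_apply']
    have h1 : (conv ν)^[N] h = fun x => lam ^ N * h x -
      ∑ n ∈ Finset.range N, lam ^ (N - n) * ((conv ν)^[n] dl) x := funext ih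
    rw [h1, conv_sub, conv_smul, hh, conv_sum]
    simp_rw [conv_smul]
    rw [Finset.sum_range_succ']
    have h2 : ∀ n ∈ Finset.range N, lam ^ (N + 1 - (n + 1)) * ((conv ν)^[n + 1] dl) x =
        lam ^ (N - n) * conv ν ((conv ν)^[n] dl) x := by
      intro n _
      rw [Function.iterate_succ_apply', Nat.add_sub_add_right]
    rw [Finset.sum_congr rfl h2]
    simp only [Nat.sub_zero, Function.iterate_zero, id_eq]
    ring

lemma iter_le {h : G → ℝ} {lam : ℝ} (hν : ∀ x, 0 ≤ ν x) (hlam : 0 ≤ lam)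
    (hh : ∀ x, conv ν h x ≤ lam * h x) (N : ℕ) (x : G) :
    ((conv ν)^[N] h) x ≤ lam ^ N * h x := by
  induction N generalizing x with
  | zero => simp
  | succ N ih =>
    rw [Function.iterate_succ_apply']
    refine (conv_mono ν hν ih x).trans ?_
    rw [conv_smul, pow_succ, mul_assoc]
    exact mul_le_mul_of_nonneg_left (hh x) (pow_nonneg hlam N)

end iter

/-- multiplicative function on the free product -/
noncomputable def HH (F : (Σ i, MM i) → ℝ) (x : Gm) : ℝ := ((CP.nf x).map F).prod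

lemma HH_one (F : (Σ i, MM i) → ℝ) : HH F 1 = 1 := by simp [HH]

lemma HH_mul {F : (Σ i, MM i) → ℝ} (hF : ∀ i, F ⟨i, 1⟩ = 1) {i : Bool} (a : A) {x : Gm}
    (hx : ∀ s ∈ (CP.nf x).head?, s.1 ≠ i) :
    HH F (CoprodI.of (M := MM) (i := i) a * x) = F ⟨i, a⟩ * HH F x := by
  by_cases ha : a = 1
  · subst ha
    rw [map_one, one_mul, hF, one_mul]
  · have hr : CP.Red ((⟨i, a⟩ : Σ i, MM i) :: CP.nf x) := by
      constructor
      · intro s hs
        rcases List.mem_cons.mp hs with h | h
        · rw [h]; exact ha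
        · exact (CP.nf_red x).1 s h
      · rw [List.isChain_cons]
        refine ⟨fun y hy => ?_, (CP.nf_red x).2⟩
        exact (hx y hy).symm
    have h1 : CP.nf (CoprodI.of (M := MM) (i := i) a * x) = (⟨i, a⟩ : Σ i, MM i) :: CP.nf x := by
      have := CP.nf_prodL hr
      rw [CP.prodL_cons, CP.prodL_nf] at this
      exact this
    unfold HH
    rw [h1, List.map_cons, List.prod_cons]

/-- the form of an element relative to a factor -/
lemma exists_form (i : Bool) (x : Gm) : ∃ (a : A) (x' : Gm), x = CoprodI.of (M := MM) (i := i) a * x' ∧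
    (∀ s ∈ (CP.nf x').head?, s.1 ≠ i) ∧ ((∀ s ∈ (CP.nf x).head?, s.1 ≠ i) → a = 1) ∧
    ((∃ s ∈ (CP.nf x).head?, s.1 = i) → a ≠ 1) := by
  by_cases h : ∀ s ∈ (CP.nf x).head?, s.1 ≠ i
  · refine ⟨1, x, by simp, h, fun _ => rfl, ?_⟩
    rintro ⟨s, hs, hs'⟩
    exact absurd hs' (h s hs)
  · push Not at h
    obtain ⟨s, hs, hs'⟩ := h
    obtain ⟨j, a⟩ := s
    simp only at hs'
    subst hs'
    have h1 : CP.nf x = (⟨j, a⟩ : Σ i, MM i) :: (CP.nf x).tail := by
      cases hn : CP.nf x with
      | nil => rw [hn] at hs; simp at hs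
      | cons b l =>
        rw [hn] at hs
        simp only [List.head?_cons, Option.mem_def, Option.some.injEq] at hs
        rw [hs]; rfl
    have hr := CP.nf_red x
    rw [h1] at hr
    have h2 : CP.nf (CP.prodL (CP.nf x).tail) = (CP.nf x).tail := CP.nf_prodL hr.tail
    refine ⟨a, CP.prodL (CP.nf x).tail, ?_, ?_, ?_, ?_⟩
    · conv_lhs => rw [← CP.prodL_nf x, h1]
      rw [CP.prodL_cons]
    · rw [h2]
      intro s hs3
      have := hr.2
      rw [List.isChain_cons] at this
      exact (this.1 s hs3).symm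
    · intro h3
      exact absurd rfl (h3 ⟨j, a⟩ hs)
    · rintro _
      exact hr.1 ⟨j, a⟩ (by simp)

/-- convolution on the free product by a measure on a factor -/
lemma conv_factor {F : (Σ i, MM i) → ℝ} (hF : ∀ i, F ⟨i, 1⟩ = 1) (i : Bool) (ν : A →₀ ℝ) (a : A)
    {x' : Gm} (hx : ∀ s ∈ (CP.nf x').head?, s.1 ≠ i) :
    conv (ν.mapDomain (CoprodI.of (M := MM) (i := i))) (HH F) (CoprodI.of (M := MM) (i := i) a * x') =
      conv ν (fun b => F ⟨i, b⟩) a * HH F x' := by
  unfold conv
  rw [Finsupp.sum_mapDomain_index (by simp) (by intros; ring)]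
  unfold Finsupp.sum
  rw [Finset.sum_mul]
  apply Finset.sum_congr rfl
  intro y _
  simp only
  rw [← mul_assoc (CoprodI.of (M := MM) (i := i) y)⁻¹, ← map_inv, ← map_mul, HH_mul hF _ hx]
  ring

/-- the measure on the free product -/
noncomputable def nuG (α : Bool → ℝ) (ν : Bool → (A →₀ ℝ)) : Gm →₀ ℝ :=
  α true • (ν true).mapDomain (CoprodI.of (M := MM) (i := true)) +
  α false • (ν false).mapDomain (CoprodI.of (M := MM) (i := false))

lemma conv_nuG (α : Bool → ℝ) (ν : Bool → (A →₀ ℝ)) (h : Gm → ℝ) (x : Gm) :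
    conv (nuG α ν) h x = α true * conv ((ν true).mapDomain (CoprodI.of (M := MM) (i := true))) h x +
      α false * conv ((ν false).mapDomain (CoprodI.of (M := MM) (i := false))) h x := by
  unfold conv nuG
  rw [Finsupp.sum_add_index' (by simp) (by intros; ring),
    Finsupp.sum_smul_index (by simp), Finsupp.sum_smul_index (by simp)]
  unfold Finsupp.sum
  rw [Finset.mul_sum, Finset.mul_sum]
  congr 1 <;> (apply Finset.sum_congr rfl; intro y _; ring)

/-- the ansatz for the Green function -/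
theorem ansatz {α : Bool → ℝ} {ν : Bool → (A →₀ ℝ)} {F : (Σ i, MM i) → ℝ}
    (hF : ∀ i, F ⟨i, 1⟩ = 1) {c m : Bool → ℝ} {lam : ℝ}
    (h1 : ∀ i, ∀ a : A, a ≠ 1 → conv (ν i) (fun b => F ⟨i, b⟩) a = c i * F ⟨i, a⟩)
    (h2 : ∀ i, conv (ν i) (fun b => F ⟨i, b⟩) 1 = m i)
    (h3 : ∀ i, α i * c i + α (!i) * m (!i) = lam) (x : Gm) :
    conv (nuG α ν) (HH F) x = lam * HH F x -
      (lam - (α true * m true + α false * m false)) * dl x := by
  have key : ∀ i, ∃ a : A, conv ((ν i).mapDomain (CoprodI.of (M := MM) (i := i))) (HH F) x =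
      (if a = 1 then m i else c i) * HH F x ∧
      ((∀ s ∈ (CP.nf x).head?, s.1 ≠ i) → a = 1) ∧
      ((∃ s ∈ (CP.nf x).head?, s.1 = i) → a ≠ 1) := by
    intro i
    obtain ⟨a, x', hx, hx', h4, h5⟩ := exists_form i x
    refine ⟨a, ?_, h4, h5⟩
    have h6 := conv_factor hF i (ν i) a hx'
    rw [← hx] at h6
    rw [h6]
    have h7 : HH F x = F ⟨i, a⟩ * HH F x' := by rw [hx, HH_mul hF a hx']
    by_cases ha : a = 1
    · subst ha
      rw [if_pos rfl, h2, h7, hF, one_mul]
    · rw [if_neg ha, h1 i a ha, h7, mul_assoc]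
  rw [conv_nuG]
  obtain ⟨a, ha1, ha2, ha3⟩ := key true
  obtain ⟨b, hb1, hb2, hb3⟩ := key false
  rw [ha1, hb1]
  cases hn : (CP.nf x).head? with
  | none =>
    have hx1 : x = 1 := by
      rw [List.head?_eq_none_iff] at hn
      rw [← CP.prodL_nf x, hn, CP.prodL_nil]
    rw [if_pos (ha2 (by rw [hn]; simp)), if_pos (hb2 (by rw [hn]; simp))]
    subst hx1
    rw [dl_one, HH_one]
    ring
  | some s =>
    have hx1 : x ≠ 1 := by
      rintro rfl
      rw [CP.nf_one] at hn
      simp at hn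
    rw [dl_ne hx1, mul_zero, sub_zero]
    obtain ⟨j, t⟩ := s
    cases j with
    | true =>
      rw [if_neg (ha3 ⟨⟨true, t⟩, by rw [hn]; rfl, rfl⟩), if_pos (hb2 (by rw [hn]; simp))]
      have := h3 true
      simp only [Bool.not_true] at this
      rw [← this]
      ring
    | false =>
      rw [if_neg (hb3 ⟨⟨false, t⟩, by rw [hn]; rfl, rfl⟩), if_pos (ha2 (by rw [hn]; simp))]
      have := h3 false
      simp only [Bool.not_false] at this
      rw [← this]
      ring

end Pool.Agent.U131.RD
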