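import Pool.Agent.U131.RD.Ana

open Set Filter Topology

namespace Pool.Agent.U131.RD

/-- rationalised parameter -/
noncomputable def rr (y : ℝ) : ℝ := y / (1 + √(1 + y ^ 2))

lemma rr_nonneg {y : ℝ} (h : 0 ≤ y) : 0 ≤ rr y := by unfold rr; positivity
lemma rr_pos {y : ℝ} (h : 0 < y) : 0 < rr y := by unfold rr; positivity

lemma rr_lt_one {y : ℝ} : rr y < 1 := by
  unfold rr
  rw [div_lt_one (by positivity)]
  have h1 : y ≤ √(1 + y ^ 2) := by
    apply Real.le_sqrt_of_sq_le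
    linarith
  linarith

lemma rr_inv {y : ℝ} (h : 0 ≤ y) : 2 * rr y / (1 - rr y ^ 2) = y := by
  have h1 : √(1 + y ^ 2) ^ 2 = 1 + y ^ 2 := Real.sq_sqrt (by positivity)
  have h0 : 0 ≤ √(1 + y ^ 2) := Real.sqrt_nonneg _
  set s := √(1 + y ^ 2) with hs
  have hr : rr y = y / (1 + s) := rfl
  have h2 : 1 - rr y ^ 2 = 2 / (1 + s) := by
    rw [hr]
    field_simp
    nlinarith
  rw [h2, hr]
  field_simp

lemma rr_of {r : ℝ} (h0 : 0 ≤ r) (h1 : r < 1) : rr (2 * r / (1 - r ^ 2)) = r := by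
  have h2 : 0 < 1 - r ^ 2 := by nlinarith
  have h3 : √(1 + (2 * r / (1 - r ^ 2)) ^ 2) = (1 + r ^ 2) / (1 - r ^ 2) := by
    rw [Real.sqrt_eq_iff_mul_self_eq (by positivity) (by positivity)]
    field_simp
    ring
  unfold rr
  rw [h3]
  field_simp
  ring

/-- auxiliary constant -/
noncomputable def DD : ℝ := 2 * (g 1 + gd) - g 1 ^ 2

lemma one_le_g1 : 1 ≤ g 1 := one_le_g zero_le_one le_rfl

lemma DD_pos : 0 < DD := by
  unfold DD
  have := g1_sq_lt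
  have := sq_nonneg (g 1)
  linarith

/-- critical value of the parameter -/
noncomputable def r1 : ℝ := g 1 / √DD

lemma r1_sq : r1 ^ 2 = g 1 ^ 2 / DD := by
  unfold r1
  rw [div_pow, Real.sq_sqrt DD_pos.le]

lemma r1_pos : 0 < r1 := by
  unfold r1
  have := one_le_g1
  have := Real.sqrt_pos.mpr DD_pos
  positivity

lemma r1_lt_one : r1 < 1 := by
  have h1 : r1 ^ 2 < 1 := by
    rw [r1_sq, div_lt_one DD_pos]
    unfold DD
    have := g1_sq_lt
    linarith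
  have := r1_pos
  nlinarith

lemma r1_sq_lt : 0 < 1 - r1 ^ 2 := by
  have := r1_pos
  have := r1_lt_one
  nlinarith

/-- ratio of the weights -/
noncomputable def κ : ℝ := 2 * r1 / ((1 - r1 ^ 2) * g 1)

lemma κ_pos : 0 < κ := by
  unfold κ
  have := r1_pos
  have := r1_sq_lt
  have := one_le_g1
  positivity

/-- the slope -/
noncomputable def D1 : ℝ := (1 - r1 ^ 2) ^ 2 / (2 * (1 + r1 ^ 2))

lemma crit : κ ^ 2 * D1 * (g 1 + gd) = 1 := by
  have h1 := r1_sq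
  have h2 := r1_sq_lt
  have h3 := one_le_g1
  have h4 := DD_pos
  have h5 := gd_nonneg
  have hg : g 1 ≠ 0 := by positivity
  have h6 : κ ^ 2 * D1 = 2 * r1 ^ 2 / ((1 + r1 ^ 2) * g 1 ^ 2) := by
    unfold κ D1
    field_simp
  rw [h6, h1]
  have h7 : DD + g 1 ^ 2 = 2 * (g 1 + gd) := by unfold DD; ring
  have h8 : 0 < g 1 + gd := by linarith
  have h9 : 2 * (g 1 ^ 2 / DD) / ((1 + g 1 ^ 2 / DD) * g 1 ^ 2) * (g 1 + gd) =
      2 * (g 1 + gd) / (DD + g 1 ^ 2) := by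
    field_simp
  rw [h9, h7]
  field_simp

/-- argument -/
noncomputable def yy (w : ℝ) : ℝ := κ * w * g w
/-- parameter of the second factor -/
noncomputable def ra (w : ℝ) : ℝ := rr (yy w)
/-- normalised inverse of the argument of the Green function -/
noncomputable def Z (w : ℝ) : ℝ := 1 / w + κ * ra w
/-- the Green function of the free product -/
noncomputable def Phi (w : ℝ) : ℝ := w * g w * Z w

lemma yy_one : yy 1 = 2 * r1 / (1 - r1 ^ 2) := by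
  have h3 := one_le_g1
  have h2 := r1_sq_lt
  unfold yy κ
  field_simp

lemma ra_one : ra 1 = r1 := by
  unfold ra
  rw [yy_one, rr_of r1_pos.le r1_lt_one]

lemma g_mono {w w' : ℝ} (h0 : 0 ≤ w) (h : w ≤ w') (h1 : w' ≤ 1) : g w ≤ g w' := by
  unfold g
  refine (g_summable h0 (h.trans h1)).tsum_le_tsum (fun n => ?_) (g_summable (h0.trans h) h1)
  have := p_nonneg n
  gcongr

lemma yy_pos {w : ℝ} (h0 : 0 < w) (h1 : w ≤ 1) : 0 < yy w := by
  unfold yy
  have := one_le_g h0.le h1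
  have := κ_pos
  positivity

lemma yy_mono {w w' : ℝ} (h0 : 0 ≤ w) (h : w ≤ w') (h1 : w' ≤ 1) : yy w ≤ yy w' := by
  unfold yy
  have h2 := g_mono h0 h h1
  have h3 := one_le_g h0 (h.trans h1)
  have h4 := κ_pos
  have : 0 ≤ w' := h0.trans h
  gcongr

lemma ra_inv {w : ℝ} (h0 : 0 < w) (h1 : w ≤ 1) : 2 * ra w / (1 - ra w ^ 2) = yy w :=
  rr_inv (yy_pos h0 h1).le

lemma ra_pos {w : ℝ} (h0 : 0 < w) (h1 : w ≤ 1) : 0 < ra w := rr_pos (yy_pos h0 h1)
lemma ra_lt_one (w : ℝ) : ra w < 1 := rr_lt_one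

lemma ra_sub {w w' : ℝ} (h0 : 0 < w) (h1 : w ≤ 1) (h0' : 0 < w') (h1' : w' ≤ 1) :
    ra w' - ra w = (yy w' - yy w) * ((1 - ra w' ^ 2) * (1 - ra w ^ 2) / (2 * (1 + ra w * ra w'))) := by
  have e1 := ra_inv h0 h1
  have e2 := ra_inv h0' h1'
  have p1 := ra_pos h0 h1
  have p2 := ra_pos h0' h1'
  have l1 := ra_lt_one w
  have l2 := ra_lt_one w'
  rw [← e1, ← e2]
  have q1 : 0 < 1 - ra w ^ 2 := by nlinarith
  have q2 : 0 < 1 - ra w' ^ 2 := by nlinarith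
  field_simp
  ring

lemma ra_mono {w w' : ℝ} (h0 : 0 < w) (h : w ≤ w') (h1' : w' ≤ 1) : ra w ≤ ra w' := by
  have h1 := h.trans h1'
  have h0' := h0.trans_le h
  have e := ra_sub h0 h1 h0' h1'
  have p1 := ra_pos h0 h1
  have p2 := ra_pos h0' h1'
  have l1 := ra_lt_one w
  have l2 := ra_lt_one w'
  have q1 : 0 < 1 - ra w ^ 2 := by nlinarith
  have q2 : 0 < 1 - ra w' ^ 2 := by nlinarith
  have m := yy_mono h0.le h h1'
  have : 0 ≤ ra w' - ra w := by
    rw [e]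
    have : 0 ≤ yy w' - yy w := by linarith
    positivity
  linarith

lemma ra_lip {w w' : ℝ} (h0 : 0 < w) (h : w ≤ w') (h1' : w' ≤ 1) :
    ra w' - ra w ≤ (yy w' - yy w) / 2 := by
  have h1 := h.trans h1'
  have h0' := h0.trans_le h
  have e := ra_sub h0 h1 h0' h1'
  have p1 := ra_pos h0 h1
  have p2 := ra_pos h0' h1'
  have l1 := ra_lt_one w
  have l2 := ra_lt_one w'
  have q1 : 0 < 1 - ra w ^ 2 := by nlinarith
  have q2 : 0 < 1 - ra w' ^ 2 := by nlinarith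
  have m := yy_mono h0.le h h1'
  rw [e, div_eq_mul_one_div (yy w' - yy w) 2]
  apply mul_le_mul_of_nonneg_left _ (by linarith)
  rw [div_le_div_iff₀ (by positivity) (by norm_num)]
  have : (1 - ra w' ^ 2) * (1 - ra w ^ 2) ≤ 1 * 1 := by
    apply mul_le_mul <;> nlinarith
  nlinarith [mul_pos p1 p2]

lemma yy_sub {u : ℝ} (h0 : 0 ≤ u) (h1 : u ≤ 1) :
    yy 1 - yy (1 - u) = κ * (u * (g 1 + gd) - (1 - u) * R u - u ^ 2 * gd) := by
  unfold yy
  rw [g_eq h0 h1]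
  ring

lemma yy_sub_le {u : ℝ} (h0 : 0 ≤ u) (h1 : u ≤ 1) :
    yy 1 - yy (1 - u) ≤ κ * (g 1 + gd) * u := by
  rw [yy_sub h0 h1]
  have h2 := R_nonneg h1
  have h3 := gd_nonneg
  have h4 := κ_pos
  have h5 : 0 ≤ (1 - u) * R u := mul_nonneg (by linarith) h2
  have h6 : 0 ≤ u ^ 2 * gd := by positivity
  calc κ * (u * (g 1 + gd) - (1 - u) * R u - u ^ 2 * gd) ≤ κ * (u * (g 1 + gd)) := by
        apply mul_le_mul_of_nonneg_left _ h4.le
        linarith
    _ = _ := by ring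

/-- the error term -/
noncomputable def EE (u : ℝ) : ℝ := (1 - r1 ^ 2) / 2 *
  ((r1 - ra (1 - u)) * (2 * r1 + ra (1 - u) + ra (1 - u) * r1 ^ 2) /
    ((1 + ra (1 - u) * r1) * (1 + r1 ^ 2)))

lemma Z_sub {u : ℝ} (h0 : 0 ≤ u) (h1 : u < 1) :
    Z (1 - u) - Z 1 = u ^ 2 / (1 - u) + κ ^ 2 * D1 * ((1 - u) * R u) + κ ^ 2 * D1 * gd * u ^ 2 -
      κ * (yy 1 - yy (1 - u)) * EE u := by
  have hw : 0 < 1 - u := by linarith
  have hw1 : 1 - u ≤ 1 := by linarith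
  have e1 := ra_sub hw hw1 zero_lt_one le_rfl
  have e2 := yy_sub h0 h1.le
  have ec := crit
  have p1 := ra_pos hw hw1
  have p2 := r1_pos
  rw [ra_one] at e1
  have e3 : r1 - ra (1 - u) = (yy 1 - yy (1 - u)) * (D1 + EE u) := by
    rw [e1]
    congr 1
    unfold D1 EE
    field_simp
    ring
  have e4 : Z (1 - u) - Z 1 = 1 / (1 - u) - 1 - κ * (r1 - ra (1 - u)) := by
    unfold Z
    rw [ra_one]
    ring
  have e5 : κ * (r1 - ra (1 - u)) = κ * (yy 1 - yy (1 - u)) * D1 +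
      κ * (yy 1 - yy (1 - u)) * EE u := by rw [e3]; ring
  have e6 : κ * (yy 1 - yy (1 - u)) * D1 = u - κ ^ 2 * D1 * ((1 - u) * R u) -
      κ ^ 2 * D1 * gd * u ^ 2 := by
    rw [e2]
    linear_combination u * ec
  rw [e4, e5, e6]
  have e7 : 1 / (1 - u) - 1 - u = u ^ 2 / (1 - u) := by
    field_simp
    ring
  linear_combination e7

lemma EE_bounds {u : ℝ} (h0 : 0 ≤ u) (h1 : u < 1) :
    0 ≤ EE u ∧ EE u ≤ yy 1 - yy (1 - u) := by
  have hw : 0 < 1 - u := by linarith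
  have hw1 : 1 - u ≤ 1 := by linarith
  have p1 := ra_pos hw hw1
  have l1 := ra_lt_one (1 - u)
  have p2 := r1_pos
  have l2 := r1_lt_one
  have m := ra_mono hw hw1 le_rfl
  have l := ra_lip hw hw1 le_rfl
  rw [ra_one] at m l
  have q2 := r1_sq_lt
  have d : 0 ≤ r1 - ra (1 - u) := by linarith
  constructor
  · unfold EE
    positivity
  · have : EE u ≤ 2 * (r1 - ra (1 - u)) := by
      unfold EE
      have t1 : (r1 - ra (1 - u)) * (2 * r1 + ra (1 - u) + ra (1 - u) * r1 ^ 2) /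
          ((1 + ra (1 - u) * r1) * (1 + r1 ^ 2)) ≤ 4 * (r1 - ra (1 - u)) := by
        rw [div_le_iff₀ (by positivity)]
        have t2 : 2 * r1 + ra (1 - u) + ra (1 - u) * r1 ^ 2 ≤ 4 := by nlinarith
        have t3 : 1 ≤ (1 + ra (1 - u) * r1) * (1 + r1 ^ 2) := by
          nlinarith [mul_pos p1 p2, sq_nonneg r1, mul_pos (mul_pos p1 p2) (sq_pos_of_pos p2)]
        calc (r1 - ra (1 - u)) * (2 * r1 + ra (1 - u) + ra (1 - u) * r1 ^ 2)
            ≤ (r1 - ra (1 - u)) * 4 := by gcongr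
          _ = 4 * (r1 - ra (1 - u)) * 1 := by ring
          _ ≤ 4 * (r1 - ra (1 - u)) * ((1 + ra (1 - u) * r1) * (1 + r1 ^ 2)) := by gcongr
      calc (1 - r1 ^ 2) / 2 * ((r1 - ra (1 - u)) * (2 * r1 + ra (1 - u) + ra (1 - u) * r1 ^ 2) /
          ((1 + ra (1 - u) * r1) * (1 + r1 ^ 2))) ≤ 1 / 2 * (4 * (r1 - ra (1 - u))) := by
            apply mul_le_mul _ t1
            · positivity
            · norm_num
            · nlinarith
        _ = _ := by ring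
    linarith

lemma c0_pos : 0 < κ ^ 2 * D1 := by
  have := κ_pos
  have := r1_sq_lt
  have := r1_pos
  unfold D1
  positivity

/-- (L1) -/
theorem Z_large (K : ℝ) : ∃ u0 : ℝ, 0 < u0 ∧ u0 ≤ 1 / 2 ∧
    ∀ u, 0 < u → u < u0 → K * u ^ 2 ≤ Z (1 - u) - Z 1 := by
  obtain ⟨u0, h0, h01, hR⟩ := R_large (2 * (K + κ * (κ * (g 1 + gd)) ^ 2) / (κ ^ 2 * D1))
  refine ⟨min u0 (1 / 2), by positivity, min_le_right _ _, ?_⟩
  intro u hu hu0
  have hu1 : u < u0 := hu0.trans_le (min_le_left _ _)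
  have hu2 : u < 1 / 2 := hu0.trans_le (min_le_right _ _)
  have h2 := hR u hu hu1
  have hc := c0_pos
  have hk := κ_pos
  have hgd := gd_nonneg
  rw [Z_sub hu.le (by linarith)]
  obtain ⟨hE0, hE1⟩ := EE_bounds hu.le (by linarith : u < 1)
  have hy := yy_sub_le hu.le (by linarith : u ≤ 1)
  have hy0 : 0 ≤ yy 1 - yy (1 - u) := by
    have := yy_mono (w := 1 - u) (w' := 1) (by linarith) (by linarith) le_rfl
    linarith
  have h3 : κ * (yy 1 - yy (1 - u)) * EE u ≤ κ * (κ * (g 1 + gd)) ^ 2 * u ^ 2 := by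
    calc κ * (yy 1 - yy (1 - u)) * EE u ≤ κ * (yy 1 - yy (1 - u)) * (yy 1 - yy (1 - u)) := by gcongr
      _ ≤ κ * (κ * (g 1 + gd) * u) * (κ * (g 1 + gd) * u) := by
        apply mul_le_mul (mul_le_mul_of_nonneg_left hy hk.le) hy hy0
        exact mul_nonneg hk.le (hy0.trans hy)
      _ = _ := by ring
  have h4 : (K + κ * (κ * (g 1 + gd)) ^ 2) * u ^ 2 ≤ κ ^ 2 * D1 * ((1 - u) * R u) := by
    have hR0 : 0 ≤ R u := R_nonneg (by linarith)
    have h5 : 2 * (K + κ * (κ * (g 1 + gd)) ^ 2) * u ^ 2 ≤ κ ^ 2 * D1 * R u := by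
      have : 2 * (K + κ * (κ * (g 1 + gd)) ^ 2) / (κ ^ 2 * D1) * u ^ 2 =
          (2 * (K + κ * (κ * (g 1 + gd)) ^ 2) * u ^ 2) / (κ ^ 2 * D1) := by ring
      rw [this, div_le_iff₀ hc] at h2
      linarith
    have h6 : κ ^ 2 * D1 * R u * (1 / 2) ≤ κ ^ 2 * D1 * R u * (1 - u) := by
      apply mul_le_mul_of_nonneg_left (by linarith) (by positivity)
    linarith
  have h7 : 0 ≤ u ^ 2 / (1 - u) := div_nonneg (sq_nonneg u) (by linarith)
  have h8 : 0 ≤ κ ^ 2 * D1 * gd * u ^ 2 := by positivity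
  linarith

/-- (L2) -/
theorem Z_small {δ : ℝ} (hδ : 0 < δ) (hδ1 : δ ≤ 1) : ∃ C : ℝ, 0 < C ∧
    ∀ u, 0 < u → u ≤ 1 / 2 → Z (1 - u) - Z 1 ≤ C * u ^ (2 - δ) := by
  obtain ⟨C, hC, hR⟩ := R_small hδ hδ1
  have hc := c0_pos
  have hk := κ_pos
  have hgd := gd_nonneg
  refine ⟨2 + κ ^ 2 * D1 * C + κ ^ 2 * D1 * gd, by positivity, ?_⟩
  intro u hu hu2
  rw [Z_sub hu.le (by linarith)]
  obtain ⟨hE0, hE1⟩ := EE_bounds hu.le (by linarith : u < 1)
  have hy0 : 0 ≤ yy 1 - yy (1 - u) := by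
    have := yy_mono (w := 1 - u) (w' := 1) (by linarith) (by linarith) le_rfl
    linarith
  have h3 : 0 ≤ κ * (yy 1 - yy (1 - u)) * EE u := by positivity
  have h4 := hR u hu.le (by linarith)
  have hR0 : 0 ≤ R u := R_nonneg (by linarith)
  have h5 : u ^ 2 ≤ u ^ (2 - δ) := by
    rw [← Real.rpow_natCast]
    apply Real.rpow_le_rpow_of_exponent_ge hu (by linarith)
    push_cast
    linarith
  have h6 : u ^ 2 / (1 - u) ≤ 2 * u ^ (2 - δ) := by
    rw [div_le_iff₀ (by linarith)]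
    have : 0 < u ^ (2 - δ) := by positivity
    nlinarith
  have h7 : κ ^ 2 * D1 * ((1 - u) * R u) ≤ κ ^ 2 * D1 * (1 * (C * u ^ (2 - δ))) := by
    gcongr
    linarith
  have h8 : κ ^ 2 * D1 * gd * u ^ 2 ≤ κ ^ 2 * D1 * gd * u ^ (2 - δ) := by gcongr
  linarith

lemma Phi_eq {w : ℝ} (h0 : w ≠ 0) : Phi w = g w + yy w * ra w := by
  unfold Phi Z yy
  field_simp

/-- (L3) -/
theorem Phi_lip : ∃ C : ℝ, 0 < C ∧ ∀ u, 0 ≤ u → u ≤ 1 / 2 → Phi 1 - Phi (1 - u) ≤ C * u := by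
  have hk := κ_pos
  have hgd := gd_nonneg
  have hg := one_le_g1
  have hy1 := yy_pos zero_lt_one le_rfl
  refine ⟨gd + κ * (g 1 + gd) + yy 1 * (κ * (g 1 + gd)), by positivity, ?_⟩
  intro u h0 h1
  have hw : 0 < 1 - u := by linarith
  have hw1 : 1 - u ≤ 1 := by linarith
  rw [Phi_eq one_ne_zero, Phi_eq hw.ne', ra_one]
  have h2 : g 1 - g (1 - u) ≤ gd * u := by
    rw [g_eq h0 (by linarith)]
    have := R_nonneg (u := u) (by linarith)
    linarith
  have h3 := yy_sub_le h0 (by linarith : u ≤ 1)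
  have hy0 : 0 ≤ yy 1 - yy (1 - u) := by
    have := yy_mono (w := 1 - u) (w' := 1) (by linarith) (by linarith) le_rfl
    linarith
  have m := ra_mono hw hw1 le_rfl
  have l := ra_lip hw hw1 le_rfl
  rw [ra_one] at m l
  have l2 := r1_lt_one
  have p2 := r1_pos
  have h4 : yy 1 * r1 - yy (1 - u) * ra (1 - u) = (yy 1 - yy (1 - u)) * r1 +
      yy (1 - u) * (r1 - ra (1 - u)) := by ring
  have h5 : (yy 1 - yy (1 - u)) * r1 ≤ (κ * (g 1 + gd) * u) * 1 := by gcongr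
  have h6 : yy (1 - u) * (r1 - ra (1 - u)) ≤ yy 1 * (κ * (g 1 + gd) * u) := by
    apply mul_le_mul _ _ (by linarith) (by positivity)
    · linarith
    · linarith
  linarith

/-- (L4) -/
theorem Phi_inc {u : ℝ} (h0 : 0 < u) (h1 : u ≤ 1 / 2) :
    1 / 128 * u ≤ Phi (1 - u / 2) - Phi (1 - u) := by
  have hw : 0 < 1 - u := by linarith
  have hw' : 0 < 1 - u / 2 := by linarith
  rw [Phi_eq hw'.ne', Phi_eq hw.ne']
  have m1 := yy_mono (w := 1 - u) (w' := 1 - u / 2) hw.le (by linarith) (by linarith)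
  have m2 := ra_mono (w := 1 - u) (w' := 1 - u / 2) hw (by linarith) (by linarith)
  have p1 := ra_pos (w := 1 - u) hw (by linarith)
  have y1 := yy_pos (w := 1 - u) hw (by linarith)
  have h2 : yy (1 - u) * ra (1 - u) ≤ yy (1 - u / 2) * ra (1 - u / 2) :=
    mul_le_mul m1 m2 p1.le (y1.le.trans m1)
  have h3 : 1 / 128 * u ≤ g (1 - u / 2) - g (1 - u) := by
    have s1 := g_summable (w := 1 - u / 2) hw'.le (by linarith)
    have s2 := g_summable (w := 1 - u) hw.le (by linarith)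
    unfold g
    rw [← s1.tsum_sub s2]
    refine le_trans ?_ ((s1.sub s2).sum_le_tsum {1} ?_)
    · rw [Finset.sum_singleton, p_one]
      nlinarith
    · intro n _
      have := p_nonneg n
      have h4 : (1 - u) ^ (2 * n) ≤ (1 - u / 2) ^ (2 * n) := by
        gcongr
        linarith
      nlinarith
  linarith

/-- (L5) -/
lemma Z_ge {w : ℝ} (h0 : 0 < w) (h1 : w ≤ 1) : 1 ≤ Z w := by
  unfold Z
  have p1 := ra_pos h0 h1
  have hk := κ_pos
  have : 1 ≤ 1 / w := by rw [le_div_iff₀ h0]; linarith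
  have : 0 < κ * ra w := by positivity
  linarith

lemma Z_le {w : ℝ} (h0 : 1 / 2 ≤ w) : Z w ≤ 2 + κ := by
  unfold Z
  have p1 := ra_lt_one w
  have hk := κ_pos
  have : 1 / w ≤ 2 := by rw [div_le_iff₀ (by linarith)]; linarith
  nlinarith

lemma Phi_pos {w : ℝ} (h0 : 0 < w) (h1 : w ≤ 1) : 0 < Phi w := by
  unfold Phi
  have := one_le_g h0.le h1
  have := Z_ge h0 h1
  positivity

end Pool.Agent.U131.RD
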