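import Pool.Agent.Helper509.RD.HS
import Pool.Agent.Helper509.RD.Cop

open MeasureTheory Set
open scoped ENNReal

namespace Pool.Agent.U131.RD

open Pool.Agent.Helper509.RD

/-- discrete form of the convolution bound -/
theorem centers_disc {G : Type*} [Group G] [Countable G] {Λ : Type*} (L : G → ℕ)
    (Box : ℕ → Finset Λ) (good : Λ → Set G) (C C' : Λ → G → G)
    (hM : ∀ x c w, ∃ y : G, ∀ h, h ∈ good x → C x h = c → C' x h⁻¹ = w → h = y)
    (hcov : ∀ h k, ∃ x ∈ Box (L h), h ∈ good x ∧ C x h = C x (h * k) ∧ C' x h⁻¹ = C' x k)
    (f ξ : G → ℝ≥0∞) :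
    ∑' g, (∑' h, f h * ξ (h⁻¹ * g)) ^ 2 ≤
      Theta * (∑' h, f h ^ 2 * ((1 + L h : ℝ≥0∞) ^ 2 * ((Box (L h)).card : ℝ≥0∞) ^ 2)) *
        ∑' k, ξ k ^ 2 := by
  let _ : TopologicalSpace G := ⊥
  have _ : DiscreteTopology G := ⟨rfl⟩
  let _ : MeasurableSpace G := ⊤
  have : BorelSpace G := ⟨by
    apply le_antisymm
    · intro s _
      exact MeasurableSpace.measurableSet_generateFrom (isOpen_discrete s)
    · exact le_top⟩
  have : MeasurableSingletonClass G := ⟨fun _ => trivial⟩
  have : IsTopologicalGroup G := inferInstance
  have : SecondCountableTopology G := inferInstance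
  have : (Measure.count : Measure G).IsMulLeftInvariant := by
    constructor
    intro g
    ext s hs
    rw [Measure.map_apply (measurable_const_mul g) hs, Measure.count_apply (measurable_const_mul g hs),
      Measure.count_apply hs]
    have : (fun x => g * x) ⁻¹' s = (fun x => g⁻¹ * x) '' s := by
      ext x
      simp only [mem_preimage, mem_image]
      constructor
      · intro h; exact ⟨g * x, h, by group⟩
      · rintro ⟨y, hy, rfl⟩; simpa using hy
    rw [this, Set.InjOn.encard_image]
    intro a _ b _ h
    simpa using h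
  have h := centers_bound (G := G) (μ := Measure.count) (T := G) L (measurable_of_countable _) Box
    good (fun _ => trivial) C C' (fun _ => measurable_of_countable _)
    (fun _ => measurable_of_countable _) 1 (by
      intro x c w
      obtain ⟨y, hy⟩ := hM x c w
      refine (measure_mono (t := {y}) ?_).trans (by simp)
      rintro h ⟨h1, h2, h3⟩
      exact hy h h1 h2 h3) hcov (f := f) (ξ := ξ) (measurable_of_countable _)
      (measurable_of_countable _)
  simpa [lintegral_count] using h

end Pool.Agent.U131.RD
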