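import Pool.Agent.U131.RD.Ansatz

open Set

namespace Pool.Agent.U131.RD

/-- probabilities of the simple random walk on the line -/
noncomputable def q : ℕ → ℤ → ℝ
  | 0, k => if k = 0 then 1 else 0
  | n + 1, k => (q n (k - 1) + q n (k + 1)) / 2

lemma q_nonneg (n : ℕ) (k : ℤ) : 0 ≤ q n k := by
  induction n generalizing k with
  | zero => unfold q; split_ifs <;> norm_num
  | succ n ih => unfold q; have := ih (k - 1); have := ih (k + 1); linarith

lemma q_zero (n : ℕ) (k : ℤ) (h : ∀ j : ℕ, k ≠ 2 * j - n) : q n k = 0 := by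
  induction n generalizing k with
  | zero =>
    unfold q
    have := h 0
    rw [if_neg]
    simpa using this
  | succ n ih =>
    unfold q
    rw [ih, ih]
    · norm_num
    · intro j hj
      apply h j
      push_cast
      omega
    · intro j hj
      apply h (j + 1)
      push_cast
      omega

lemma q_choose (n j : ℕ) : q n (2 * j - n) = (n.choose j : ℝ) / 2 ^ n := by
  induction n generalizing j with
  | zero =>
    unfold q
    cases j with
    | zero => simp
    | succ j =>
      rw [if_neg]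
      · simp
      · push_cast; omega
  | succ n ih =>
    unfold q
    have h2 : q n ((2 * j - (n + 1 : ℕ) : ℤ) + 1) = (n.choose j : ℝ) / 2 ^ n := by
      rw [← ih j]; congr 1; push_cast; ring
    rw [h2]
    cases j with
    | zero =>
      rw [q_zero]
      · simp; ring
      · intro i hi
        push_cast at hi
        omega
    | succ j =>
      have h1 : q n ((2 * (j + 1 : ℕ) - (n + 1 : ℕ) : ℤ) - 1) = (n.choose j : ℝ) / 2 ^ n := by
        rw [← ih j]; congr 1; push_cast; ring
      rw [h1, Nat.choose_succ_succ]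
      push_cast
      ring

/-- return probabilities of the simple random walk on the line -/
noncomputable def a (n : ℕ) : ℝ := (n.centralBinom : ℝ) / 4 ^ n

lemma a_nonneg (n : ℕ) : 0 ≤ a n := by unfold a; positivity

lemma q_even_zero (n : ℕ) : q (2 * n) 0 = a n := by
  have := q_choose (2 * n) n
  have h : (2 * (n : ℤ) - ((2 * n : ℕ) : ℤ)) = 0 := by push_cast; ring
  rw [h] at this
  rw [this]
  unfold a Nat.centralBinom
  rw [pow_mul]
  norm_num

lemma q_odd_zero (n : ℕ) : q (2 * n + 1) 0 = 0 := by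
  apply q_zero
  intro j hj
  push_cast at hj
  omega

lemma q_even_le (n : ℕ) (k : ℤ) : q (2 * n) k ≤ a n := by
  by_cases h : ∃ j : ℕ, k = 2 * j - (2 * n : ℕ)
  · obtain ⟨j, rfl⟩ := h
    rw [q_choose]
    unfold a
    rw [pow_mul]
    norm_num
    gcongr
    exact Nat.choose_le_centralBinom j n
  · push Not at h
    rw [q_zero _ _ h]
    exact a_nonneg n

lemma q_le (n : ℕ) (k : ℤ) : q n k ≤ a (n / 2) := by
  rcases Nat.even_or_odd' n with ⟨m, rfl | rfl⟩
  · rw [Nat.mul_div_cancel_left _ (by norm_num)]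
    exact q_even_le m k
  · have : (2 * m + 1) / 2 = m := by omega
    rw [this]
    unfold q
    have := q_even_le m (k - 1)
    have := q_even_le m (k + 1)
    linarith

lemma a_succ (n : ℕ) : a (n + 1) = a n * ((2 * n + 1) / (2 * n + 2)) := by
  have h := Nat.succ_mul_centralBinom_succ n
  have h' : ((n : ℝ) + 1) * ((n + 1).centralBinom : ℝ) = 2 * (2 * n + 1) * (n.centralBinom : ℝ) := by
    exact_mod_cast h
  unfold a
  rw [pow_succ]
  field_simp
  linear_combination (2 : ℝ) * h'

lemma a_zero : a 0 = 1 := by simp [a]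

lemma a_sq_le (n : ℕ) : a n ^ 2 ≤ 1 / (2 * n + 1) := by
  induction n with
  | zero => simp [a_zero]
  | succ n ih =>
    rw [a_succ, mul_pow]
    calc a n ^ 2 * ((2 * (n:ℝ) + 1) / (2 * n + 2)) ^ 2
        ≤ 1 / (2 * n + 1) * ((2 * (n:ℝ) + 1) / (2 * n + 2)) ^ 2 := by gcongr
      _ ≤ 1 / (2 * ((n + 1 : ℕ) : ℝ) + 1) := by
        push_cast
        rw [div_pow, div_mul_div_comm, div_le_div_iff₀ (by positivity) (by positivity)]
        have : (0:ℝ) ≤ n := Nat.cast_nonneg n
        nlinarith [mul_nonneg this this, mul_nonneg (mul_nonneg this this) this]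

lemma le_a_sq (n : ℕ) (hn : 1 ≤ n) : 1 / (4 * (n:ℝ)) ≤ a n ^ 2 := by
  induction n, hn using Nat.le_induction with
  | base =>
    have : a 1 = 1 / 2 := by
      have := a_succ 0
      rw [a_zero] at this
      simpa using this
    rw [this]; norm_num
  | succ n hn ih =>
    rw [a_succ, mul_pow]
    have h1 : (1:ℝ) ≤ n := by exact_mod_cast hn
    calc 1 / (4 * ((n + 1 : ℕ) : ℝ)) ≤ 1 / (4 * (n:ℝ)) * ((2 * (n:ℝ) + 1) / (2 * n + 2)) ^ 2 := by
          push_cast
          rw [div_pow, div_mul_div_comm, div_le_div_iff₀ (by positivity) (by positivity)]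
          nlinarith [h1]
      _ ≤ _ := by gcongr

/-- return probabilities in the factor -/
noncomputable def p (n : ℕ) : ℝ := a n ^ 6

lemma p_nonneg (n : ℕ) : 0 ≤ p n := by unfold p; positivity
lemma p_zero : p 0 = 1 := by simp [p, a_zero]
lemma p_one : p 1 = 1 / 64 := by
  have := a_succ 0
  rw [a_zero] at this
  unfold p
  rw [this]
  norm_num

lemma p_le (n : ℕ) : p n ≤ 1 / (2 * n + 1) ^ 3 := by
  unfold p
  have h := a_sq_le n
  calc a n ^ 6 = (a n ^ 2) ^ 3 := by ring
    _ ≤ (1 / (2 * (n : ℝ) + 1)) ^ 3 := by gcongr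
    _ = _ := by rw [div_pow, one_pow]

lemma le_p (n : ℕ) (hn : 1 ≤ n) : 1 / (64 * (n:ℝ) ^ 3) ≤ p n := by
  unfold p
  have h := le_a_sq n hn
  calc 1 / (64 * (n:ℝ) ^ 3) = (1 / (4 * (n:ℝ))) ^ 3 := by rw [div_pow, one_pow]; ring
    _ ≤ (a n ^ 2) ^ 3 := by gcongr
    _ = _ := by ring

/-- bound for the probabilities in the factor -/
noncomputable def b (n : ℕ) : ℝ := a (n / 2) ^ 6

lemma b_nonneg (n : ℕ) : 0 ≤ b n := by unfold b; positivity

lemma b_le (n : ℕ) (hn : 1 ≤ n) : b n ≤ 1 / (n : ℝ) ^ 3 := by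
  have h := p_le (n / 2)
  unfold p at h
  unfold b
  refine h.trans ?_
  have hn' : (0:ℝ) < n := by exact_mod_cast hn
  have h1 : (n : ℝ) ≤ 2 * ((n / 2 : ℕ) : ℝ) + 1 := by
    have : n ≤ 2 * (n / 2) + 1 := by omega
    exact_mod_cast this
  gcongr

lemma b_summable : Summable b := by
  have h : Summable (fun n : ℕ => 1 / (n : ℝ) ^ 3) := Real.summable_one_div_nat_pow.mpr (by norm_num)
  rw [← summable_nat_add_iff 1]
  refine Summable.of_nonneg_of_le (fun n => b_nonneg _) (fun n => b_le (n + 1) (by omega)) ?_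
  exact (summable_nat_add_iff 1).mpr h

/-! ### the measures -/

section convHom
variable {G : Type*} [Group G]

/-- convolution as a homomorphism in the measure -/
noncomputable def convHom (h : G → ℝ) (x : G) : (G →₀ ℝ) →+ ℝ :=
  Finsupp.liftAddHom (fun y => AddMonoidHom.mulRight (h (y⁻¹ * x)))

lemma conv_eq (ν : G →₀ ℝ) (h : G → ℝ) (x : G) : conv ν h x = convHom h x ν := by
  unfold conv convHom
  rw [Finsupp.liftAddHom_apply]
  rfl

lemma convHom_single (h : G → ℝ) (x y : G) (c : ℝ) :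
    convHom h x (Finsupp.single y c) = c * h (y⁻¹ * x) := by
  unfold convHom
  rw [Finsupp.liftAddHom_apply_single]
  rfl

/-- symmetric measures -/
def Sy (ν : G →₀ ℝ) : Prop := ν.mapDomain (fun y => y⁻¹) = ν

lemma Sy.apply {ν : G →₀ ℝ} (h : Sy ν) (x : G) : ν x⁻¹ = ν x := by
  conv_lhs => rw [← h]
  exact Finsupp.mapDomain_apply inv_injective ν x

lemma Sy.map {G' : Type*} [Group G'] {ν : G →₀ ℝ} (h : Sy ν) (φ : G →* G') :
    Sy (ν.mapDomain φ) := by
  unfold Sy
  rw [← Finsupp.mapDomain_comp]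
  have : (fun y : G' => y⁻¹) ∘ φ = φ ∘ (fun y : G => y⁻¹) := by ext y; simp
  rw [this, Finsupp.mapDomain_comp, h]

lemma Sy.add {ν μ : G →₀ ℝ} (h : Sy ν) (h' : Sy μ) : Sy (ν + μ) := by
  unfold Sy; rw [Finsupp.mapDomain_add, h, h']

lemma Sy.smul {ν : G →₀ ℝ} (h : Sy ν) (c : ℝ) : Sy (c • ν) := by
  unfold Sy; rw [Finsupp.mapDomain_smul, h]

end convHom

/-- sign vector -/
def sg (ε : Fin 6 → Bool) : A :=
  Multiplicative.ofAdd (fun i => if ε i then (1 : ℤ) else -1 : Fin 6 → ℤ)

lemma sg_not (ε : Fin 6 → Bool) : (sg ε)⁻¹ = sg (fun i => !(ε i)) := by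
  unfold sg
  rw [← ofAdd_neg]
  apply congrArg
  funext i
  simp only [Pi.neg_apply]
  by_cases h : ε i = true
  · simp [h]
  · simp [h]

/-- uniform measure on sign vectors -/
noncomputable def nuA : A →₀ ℝ := ∑ ε : Fin 6 → Bool, Finsupp.single (sg ε) (1 / 64)

/-- the vector on the line -/
def ee : A := Multiplicative.ofAdd (Pi.single 0 1 : Fin 6 → ℤ)

/-- simple random walk on the line -/
noncomputable def nuB : A →₀ ℝ := Finsupp.single ee (1 / 2) + Finsupp.single ee⁻¹ (1 / 2)

lemma nuA_nonneg (x : A) : 0 ≤ nuA x := by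
  classical
  unfold nuA
  rw [Finsupp.finset_sum_apply]
  apply Finset.sum_nonneg
  intro ε _
  rw [Finsupp.single_apply]
  split_ifs <;> norm_num

lemma nuB_nonneg (x : A) : 0 ≤ nuB x := by
  classical
  unfold nuB
  rw [Finsupp.add_apply, Finsupp.single_apply, Finsupp.single_apply]
  split_ifs <;> norm_num

lemma nuA_sy : Sy nuA := by
  unfold Sy nuA
  rw [Finsupp.mapDomain_finset_sum]
  simp_rw [Finsupp.mapDomain_single, sg_not]
  exact Fintype.sum_bijective (fun ε : Fin 6 → Bool => (fun i => !(ε i)))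
    ⟨fun x y h => by
      funext i
      have := congrFun h i
      simpa using this, fun y => ⟨fun i => !(y i), by funext i; simp⟩⟩ _ _ (fun _ => rfl)

lemma nuB_sy : Sy nuB := by
  unfold Sy nuB
  rw [Finsupp.mapDomain_add, Finsupp.mapDomain_single, Finsupp.mapDomain_single, inv_inv, add_comm]

lemma conv_nuA (h : A → ℝ) (x : A) : conv nuA h x =
    ∑ ε : Fin 6 → Bool, 1 / 64 * h ((sg ε)⁻¹ * x) := by
  rw [conv_eq]
  unfold nuA
  rw [map_sum]
  simp_rw [convHom_single]

lemma conv_nuB (h : A → ℝ) (x : A) : conv nuB h x = (h (ee⁻¹ * x) + h (ee * x)) / 2 := by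
  rw [conv_eq]
  unfold nuB
  rw [map_add, convHom_single, convHom_single, inv_inv]
  ring

lemma mass_conv {G : Type*} [Group G] (ν : G →₀ ℝ) (x : G) :
    ν.sum (fun _ a => a) = conv ν (fun _ => 1) x := by
  unfold conv
  simp

lemma nuA_mass : nuA.sum (fun _ a => a) = 1 := by
  rw [mass_conv nuA 1, conv_nuA]
  simp only [mul_one, Finset.sum_const, Finset.card_univ, Fintype.card_pi, Fintype.card_bool,
    Finset.prod_const, Fintype.card_fin, nsmul_eq_mul]
  norm_num

lemma nuB_mass : nuB.sum (fun _ a => a) = 1 := by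
  rw [mass_conv nuB 1, conv_nuB]
  norm_num

/-! ### the Green function of the first factor -/

/-- step probabilities of the first factor -/
noncomputable def QA (n : ℕ) (x : A) : ℝ := ∏ i, q n (Multiplicative.toAdd x i)

lemma QA_nonneg (n : ℕ) (x : A) : 0 ≤ QA n x := Finset.prod_nonneg (fun _ _ => q_nonneg _ _)

lemma QA_le (n : ℕ) (x : A) : QA n x ≤ b n := by
  unfold QA b
  calc ∏ i : Fin 6, q n (Multiplicative.toAdd x i) ≤ ∏ _i : Fin 6, a (n / 2) :=
        Finset.prod_le_prod (fun _ _ => q_nonneg _ _) (fun _ _ => q_le _ _)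
    _ = _ := by simp

lemma QA_succ (n : ℕ) (x : A) : conv nuA (QA n) x = QA (n + 1) x := by
  rw [conv_nuA]
  unfold QA
  have h1 : ∀ i : Fin 6, q (n + 1) (Multiplicative.toAdd x i) =
      ∑ e : Bool, (1 / 2) * q n (Multiplicative.toAdd x i - (if e then 1 else -1)) := by
    intro i
    rw [Fintype.sum_bool]
    simp only [if_true, Bool.false_eq_true, if_false, sub_neg_eq_add]
    rw [q]
    ring
  simp_rw [h1]
  rw [Finset.prod_univ_sum, Fintype.piFinset_univ]
  apply Finset.sum_congr rfl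
  intro ε _
  rw [Finset.prod_mul_distrib]
  have h2 : ∏ _i : Fin 6, (1 / 2 : ℝ) = 1 / 64 := by simp; norm_num
  rw [h2]
  congr 1
  apply Finset.prod_congr rfl
  intro i _
  congr 1
  unfold sg
  simp only [toAdd_mul, toAdd_inv, toAdd_ofAdd, Pi.add_apply, Pi.neg_apply]
  ring

lemma QA_zero (x : A) : QA 0 x = dl x := by
  by_cases hx : x = 1
  · subst hx
    rw [dl_one]
    unfold QA
    simp [q]
  · rw [dl_ne hx]
    unfold QA
    have : ∃ i, Multiplicative.toAdd x i ≠ 0 := by
      by_contra hc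
      push Not at hc
      apply hx
      apply Multiplicative.toAdd.injective
      funext i
      simpa using hc i
    obtain ⟨i, hi⟩ := this
    apply Finset.prod_eq_zero (Finset.mem_univ i)
    unfold q
    rw [if_neg hi]

/-- the Green function -/
noncomputable def GA (w : ℝ) (x : A) : ℝ := ∑' n, w ^ n * QA n x

lemma GA_summable {w : ℝ} (h0 : 0 ≤ w) (h1 : w ≤ 1) (x : A) : Summable (fun n => w ^ n * QA n x) := by
  refine Summable.of_nonneg_of_le (fun n => mul_nonneg (pow_nonneg h0 n) (QA_nonneg _ _))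
    (fun n => ?_) b_summable
  calc w ^ n * QA n x ≤ 1 * b n :=
        mul_le_mul (pow_le_one₀ h0 h1) (QA_le n x) (QA_nonneg _ _) zero_le_one
    _ = b n := one_mul _

lemma GA_le {w : ℝ} (h0 : 0 ≤ w) (h1 : w ≤ 1) (x : A) : GA w x ≤ ∑' n, b n := by
  unfold GA
  refine Summable.tsum_le_tsum (fun n => ?_) (GA_summable h0 h1 x) b_summable
  calc w ^ n * QA n x ≤ 1 * b n :=
        mul_le_mul (pow_le_one₀ h0 h1) (QA_le n x) (QA_nonneg _ _) zero_le_one
    _ = b n := one_mul _

lemma GA_nonneg {w : ℝ} (h0 : 0 ≤ w) (x : A) : 0 ≤ GA w x :=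
  tsum_nonneg (fun n => mul_nonneg (pow_nonneg h0 n) (QA_nonneg _ _))

lemma GA_eq {w : ℝ} (h0 : 0 ≤ w) (h1 : w ≤ 1) (x : A) :
    GA w x = dl x + w * conv nuA (GA w) x := by
  have h2 : conv nuA (GA w) x = ∑' n, w ^ n * QA (n + 1) x := by
    have h3 : ∀ n, w ^ n * QA (n + 1) x = ∑ ε : Fin 6 → Bool, 1 / 64 * (w ^ n * QA n ((sg ε)⁻¹ * x)) := by
      intro n
      rw [← QA_succ, conv_nuA, Finset.mul_sum]
      apply Finset.sum_congr rfl
      intro ε _
      ring
    simp_rw [h3]
    rw [Summable.tsum_finsetSum (fun ε _ => (GA_summable h0 h1 _).mul_left _), conv_nuA]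
    apply Finset.sum_congr rfl
    intro ε _
    rw [tsum_mul_left]
    rfl
  rw [h2, ← tsum_mul_left]
  unfold GA
  rw [(GA_summable h0 h1 x).tsum_eq_zero_add, QA_zero, pow_zero, one_mul]
  congr 1
  congr 1
  funext n
  ring

/-- the Green function at the identity -/
noncomputable def g (w : ℝ) : ℝ := ∑' n, p n * w ^ (2 * n)

lemma p_summable : Summable p := by
  have h : Function.Injective (fun n : ℕ => 2 * n) := fun a b h => by simpa using h
  have := b_summable.comp_injective h
  refine this.congr (fun n => ?_)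
  simp [b, p]

lemma g_summable {w : ℝ} (h0 : 0 ≤ w) (h1 : w ≤ 1) : Summable (fun n => p n * w ^ (2 * n)) := by
  refine Summable.of_nonneg_of_le (fun n => mul_nonneg (p_nonneg n) (pow_nonneg h0 _))
    (fun n => ?_) p_summable
  calc p n * w ^ (2 * n) ≤ p n * 1 :=
        mul_le_mul_of_nonneg_left (pow_le_one₀ h0 h1) (p_nonneg n)
    _ = p n := mul_one _

lemma GA_one {w : ℝ} (h0 : 0 ≤ w) (h1 : w ≤ 1) : GA w 1 = g w := by
  unfold GA g
  have hs := GA_summable h0 h1 1
  have hodd : ∀ m, w ^ (2 * m + 1) * QA (2 * m + 1) (1 : A) = 0 := by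
    intro m
    unfold QA
    simp [q_odd_zero]
  have heven : ∀ m, w ^ (2 * m) * QA (2 * m) (1 : A) = p m * w ^ (2 * m) := by
    intro m
    unfold QA p
    simp [q_even_zero]
    ring
  rw [← tsum_even_add_odd (f := fun n => w ^ n * QA n (1 : A))]
  · simp_rw [hodd, heven]
    simp
  · simp_rw [heven]; exact g_summable h0 h1
  · simp_rw [hodd]; exact summable_zero

lemma one_le_g {w : ℝ} (h0 : 0 ≤ w) (h1 : w ≤ 1) : 1 ≤ g w := by
  unfold g
  have := (g_summable h0 h1).sum_le_tsum {0} (fun n _ => mul_nonneg (p_nonneg n) (pow_nonneg h0 _))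
  simpa [p_zero] using this

/-- the normalised Green function -/
noncomputable def FA (w : ℝ) (x : A) : ℝ := GA w x / g w

lemma FA_one {w : ℝ} (h0 : 0 ≤ w) (h1 : w ≤ 1) : FA w 1 = 1 := by
  unfold FA
  rw [GA_one h0 h1, div_self]
  have := one_le_g h0 h1
  positivity

lemma FA_nonneg {w : ℝ} (h0 : 0 ≤ w) (h1 : w ≤ 1) (x : A) : 0 ≤ FA w x :=
  div_nonneg (GA_nonneg h0 x) (zero_le_one.trans (one_le_g h0 h1))

lemma FA_le {w : ℝ} (h0 : 0 ≤ w) (h1 : w ≤ 1) (x : A) : FA w x ≤ ∑' n, b n := by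
  have hg := one_le_g h0 h1
  unfold FA
  rw [div_le_iff₀ (by linarith)]
  have h2 := GA_le h0 h1 x
  have h3 : 0 ≤ ∑' n, b n := tsum_nonneg b_nonneg
  nlinarith

lemma conv_div {G : Type*} [Group G] (ν : G →₀ ℝ) (c : ℝ) (h : G → ℝ) (x : G) :
    conv ν (fun y => h y / c) x = conv ν h x / c := by
  have := conv_smul ν c⁻¹ h x
  simp_rw [← div_eq_inv_mul] at this
  exact this

lemma FA_eq {w : ℝ} (h0 : 0 ≤ w) (h1 : w ≤ 1) {x : A} (hx : x ≠ 1) :
    FA w x = w * conv nuA (FA w) x := by
  unfold FA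
  rw [conv_div]
  conv_lhs => rw [GA_eq h0 h1 x, dl_ne hx, zero_add]
  ring

lemma FA_conv_one {w : ℝ} (h0 : 0 < w) (h1 : w ≤ 1) :
    conv nuA (FA w) 1 = (g w - 1) / (w * g w) := by
  unfold FA
  rw [conv_div]
  have h2 := GA_eq h0.le h1 1
  rw [GA_one h0.le h1, dl_one] at h2
  have hg := one_le_g h0.le h1
  have h3 : conv nuA (GA w) 1 = (g w - 1) / w := by
    field_simp
    linarith
  rw [h3, div_div]

lemma FA_mono {w : ℝ} (h0 : 0 < w) (h1 : w < 1) (x : A) : FA w x ≤ FA 1 x := by
  have key : ∀ n : ℕ, ∀ x, FA w x - FA 1 x ≤ w ^ n * ∑' n, b n := by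
    intro n
    induction n with
    | zero =>
      intro x
      have h2 := FA_le h0.le h1.le x
      have h3 := FA_nonneg zero_le_one le_rfl x
      simp only [pow_zero, one_mul]
      linarith
    | succ n ih =>
      intro x
      by_cases hx : x = 1
      · subst hx
        rw [FA_one h0.le h1.le, FA_one zero_le_one le_rfl, sub_self]
        have h3 : 0 ≤ ∑' n, b n := tsum_nonneg b_nonneg
        positivity
      · have e1 := FA_eq h0.le h1.le hx
        have e2 := FA_eq zero_le_one le_rfl hx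
        have h3 : conv nuA (fun y => FA w y - FA 1 y) x ≤ conv nuA (fun _ => w ^ n * ∑' n, b n) x :=
          conv_mono nuA nuA_nonneg ih x
        rw [conv_sub, conv_const nuA nuA_mass] at h3
        have h4 : 0 ≤ conv nuA (FA 1) x := by
          have := iter_nonneg nuA nuA_nonneg (fun y => FA_nonneg zero_le_one le_rfl y) 1 x
          simpa using this
        rw [e1, e2, one_mul, pow_succ]
        calc w * conv nuA (FA w) x - conv nuA (FA 1) x
            ≤ w * conv nuA (FA w) x - w * conv nuA (FA 1) x := by nlinarith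
          _ = w * (conv nuA (FA w) x - conv nuA (FA 1) x) := by ring
          _ ≤ w * (w ^ n * ∑' n, b n) := by gcongr
          _ = _ := by ring
  have hlim : Filter.Tendsto (fun n : ℕ => w ^ n * ∑' n, b n) Filter.atTop (nhds 0) := by
    have := (tendsto_pow_atTop_nhds_zero_of_lt_one h0.le h1).mul_const (∑' n, b n)
    simpa using this
  have := ge_of_tendsto' hlim (fun n => key n x)
  linarith

/-! ### the second factor -/

open Classical in
/-- the function on the second factor -/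
noncomputable def FB (r : ℝ) (x : A) : ℝ :=
  if ∀ i : Fin 6, i ≠ 0 → Multiplicative.toAdd x i = 0 then r ^ (Multiplicative.toAdd x 0).natAbs else 0

lemma FB_one (r : ℝ) : FB r 1 = 1 := by
  unfold FB
  simp

lemma FB_nonneg {r : ℝ} (h0 : 0 ≤ r) (x : A) : 0 ≤ FB r x := by
  unfold FB
  split_ifs <;> positivity

lemma FB_mono {r s : ℝ} (h0 : 0 ≤ r) (h1 : r ≤ s) (x : A) : FB r x ≤ FB s x := by
  unfold FB
  split_ifs
  · gcongr
  · exact le_rfl

lemma cond_iff (x : A) (k : ℤ) : (∀ i : Fin 6, i ≠ 0 →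
    Multiplicative.toAdd (Multiplicative.ofAdd (Pi.single 0 k : Fin 6 → ℤ) * x) i = 0) ↔
    (∀ i : Fin 6, i ≠ 0 → Multiplicative.toAdd x i = 0) := by
  constructor
  · intro h i hi
    have := h i hi
    simpa [Pi.single_eq_of_ne hi] using this
  · intro h i hi
    simpa [Pi.single_eq_of_ne hi] using h i hi

lemma FB_shift (r : ℝ) (x : A) (k : ℤ) (hx : ∀ i : Fin 6, i ≠ 0 → Multiplicative.toAdd x i = 0) :
    FB r (Multiplicative.ofAdd (Pi.single 0 k : Fin 6 → ℤ) * x) =
      r ^ (k + Multiplicative.toAdd x 0).natAbs := by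
  unfold FB
  rw [if_pos ((cond_iff x k).2 hx)]
  simp

lemma ee_eq : ee = Multiplicative.ofAdd (Pi.single 0 1 : Fin 6 → ℤ) := rfl
lemma ee_inv : ee⁻¹ = Multiplicative.ofAdd (Pi.single 0 (-1) : Fin 6 → ℤ) := by
  unfold ee
  rw [← ofAdd_neg, ← Pi.single_neg]

lemma FB_conv_one {r : ℝ} : conv nuB (FB r) 1 = r := by
  rw [conv_nuB, ee_inv, ee_eq, FB_shift, FB_shift]
  · simp
  · simp
  · simp

lemma FB_conv {r : ℝ} (hr : 0 < r) {x : A} (hx : x ≠ 1) :
    conv nuB (FB r) x = (1 + r ^ 2) / (2 * r) * FB r x := by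
  rw [conv_nuB, ee_inv, ee_eq]
  by_cases h : ∀ i : Fin 6, i ≠ 0 → Multiplicative.toAdd x i = 0
  · rw [FB_shift _ _ _ h, FB_shift _ _ _ h]
    have h0 : Multiplicative.toAdd x 0 ≠ 0 := by
      intro h0
      apply hx
      apply Multiplicative.toAdd.injective
      funext i
      by_cases hi : i = 0
      · subst hi; simpa using h0
      · simpa using h i hi
    unfold FB
    rw [if_pos h]
    set k := Multiplicative.toAdd x 0
    rcases lt_or_gt_of_ne h0 with hk | hk
    · obtain ⟨m, hm⟩ : ∃ m : ℕ, k = -(m + 1 : ℤ) := ⟨(-k - 1).toNat, by omega⟩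
      have e1 : (-1 + k).natAbs = m + 2 := by omega
      have e2 : (1 + k).natAbs = m := by omega
      have e3 : k.natAbs = m + 1 := by omega
      rw [e1, e2, e3]
      field_simp
      ring
    · obtain ⟨m, hm⟩ : ∃ m : ℕ, k = (m + 1 : ℤ) := ⟨(k - 1).toNat, by omega⟩
      have e1 : (-1 + k).natAbs = m := by omega
      have e2 : (1 + k).natAbs = m + 2 := by omega
      have e3 : k.natAbs = m + 1 := by omega
      rw [e1, e2, e3]
      field_simp
      ring
  · have h1 : ∀ k : ℤ, FB r (Multiplicative.ofAdd (Pi.single 0 k : Fin 6 → ℤ) * x) = 0 := by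
      intro k
      unfold FB
      rw [if_neg]
      rwa [cond_iff]
    rw [h1, h1]
    unfold FB
    rw [if_neg h]
    simp

end Pool.Agent.U131.RD
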