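import Pool.Agent.U131.RD.Main

open MeasureTheory Set Monoid
open scoped ENNReal

namespace Pool.Agent.U131.RD

open Pool.Agent.Helper509.RD

/-- generators -/
noncomputable def gen (b : Bool) (i : Fin 6) : Gm :=
  CoprodI.of (M := MM) (i := b) (Multiplicative.ofAdd (Pi.single i (1 : ℤ)))

open Classical in
/-- the generating set -/
noncomputable def SS : Finset Gm := Finset.univ.image (fun p : Bool × Fin 6 => gen p.1 p.2)

lemma mem_SS {x : Gm} : x ∈ SS ↔ ∃ b i, gen b i = x := by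
  unfold SS
  simp

lemma of_mem (b : Bool) (a : A) : CoprodI.of (M := MM) (i := b) a ∈ Subgroup.closure (SS : Set Gm) := by
  have h1 : ∀ v : Fin 6 → ℤ, CoprodI.of (M := MM) (i := b) (Multiplicative.ofAdd v) ∈
      Subgroup.closure (SS : Set Gm) := by
    intro v
    induction v using Pi.single_induction with
    | zero => simpa using Subgroup.one_mem _
    | add f g hf hg =>
      rw [ofAdd_add, map_mul]
      exact Subgroup.mul_mem _ hf hg
    | single i m =>
      have h2 : (Multiplicative.ofAdd (Pi.single i m : Fin 6 → ℤ)) =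
          (Multiplicative.ofAdd (Pi.single i (1 : ℤ) : Fin 6 → ℤ)) ^ m := by
        rw [← ofAdd_zsmul, ← Pi.single_smul]
        simp
      rw [h2, map_zpow]
      apply Subgroup.zpow_mem
      apply Subgroup.subset_closure
      rw [Finset.mem_coe, mem_SS]
      exact ⟨b, i, rfl⟩
  exact h1 (Multiplicative.toAdd a)

lemma closure_SS : Subgroup.closure (SS : Set Gm) = ⊤ := by
  rw [eq_top_iff]
  intro x _
  induction x using CoprodI.induction_on with
  | one => exact Subgroup.one_mem _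
  | of i m => exact of_mem i m
  | mul x y hx hy => exact Subgroup.mul_mem _ (hx trivial) (hy trivial)

lemma w_inv (i : Bool) (m : A) : w ⟨i, m⁻¹⟩ = w ⟨i, m⟩ := by
  unfold w
  simp

lemma wt_gen (b : Bool) (i : Fin 6) : CP.wt w (gen b i) ≤ 1 := by
  unfold gen
  refine (CP.wt_of_le w _).trans ?_
  unfold w
  simp only [toAdd_ofAdd]
  rw [Finset.sum_eq_single i]
  · simp
  · intro j _ hj
    simp [Pi.single_eq_of_ne hj]
  · simp

lemma wt_list (l : List Gm) (hl : ∀ y ∈ l, y ∈ SS ∨ y⁻¹ ∈ SS) : CP.wt w l.prod ≤ l.length := by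
  induction l with
  | nil => simp
  | cons a l ih =>
    rw [List.prod_cons, List.length_cons]
    refine (CP.wt_mul_le (w := w) w_mul a l.prod).trans ?_
    have h1 := ih (fun y hy => hl y (List.mem_cons_of_mem _ hy))
    have h2 : CP.wt w a ≤ 1 := by
      rcases hl a (List.mem_cons_self) with h | h
      · rw [mem_SS] at h
        obtain ⟨b, i, rfl⟩ := h
        exact wt_gen b i
      · rw [mem_SS] at h
        obtain ⟨b, i, h⟩ := h
        rw [← CP.wt_inv (w := w) w_inv, ← h]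
        exact wt_gen b i
    omega

/-- word length -/
noncomputable def len (x : Gm) : ℕ := sInf {n : ℕ | ∃ l : List Gm, l.length = n ∧
  (∀ y ∈ l, y ∈ SS ∨ y⁻¹ ∈ SS) ∧ l.prod = x}

lemma wt_le_len (x : Gm) : CP.wt w x ≤ len x := by
  unfold len
  have hne : {n : ℕ | ∃ l : List Gm, l.length = n ∧
      (∀ y ∈ l, y ∈ SS ∨ y⁻¹ ∈ SS) ∧ l.prod = x}.Nonempty := by
    have hx : x ∈ Subgroup.closure (SS : Set Gm) := by rw [closure_SS]; trivial
    rw [← Subgroup.mem_toSubmonoid, Subgroup.closure_toSubmonoid] at hx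
    obtain ⟨l, h1, h2⟩ := Submonoid.exists_list_of_mem_closure hx
    refine ⟨l.length, l, rfl, fun y hy => ?_, h2⟩
    rcases h1 y hy with h | h
    · exact Or.inl h
    · exact Or.inr h
  obtain ⟨l, h1, h2, h3⟩ := Nat.sInf_mem hne
  rw [← h1]
  subst h3
  exact wt_list l h2

lemma box_bound (x : Gm) : (1 + (CP.wt w x : ℝ)) ^ 2 * ((Box (CP.wt w x)).card : ℝ) ^ 2 ≤
    589824 * (1 + (len x : ℝ)) ^ 18 := by
  have h1 : ((Box (CP.wt w x)).card : ℝ) ≤ 3 * (2 * (CP.wt w x : ℝ) + 2) ^ 8 := by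
    have := card_Box (CP.wt w x)
    exact_mod_cast this
  have h2 : (CP.wt w x : ℝ) ≤ len x := by exact_mod_cast wt_le_len x
  have h0 : (0 : ℝ) ≤ CP.wt w x := Nat.cast_nonneg _
  calc (1 + (CP.wt w x : ℝ)) ^ 2 * ((Box (CP.wt w x)).card : ℝ) ^ 2
      ≤ (1 + (CP.wt w x : ℝ)) ^ 2 * (3 * (2 * (CP.wt w x : ℝ) + 2) ^ 8) ^ 2 := by gcongr
    _ = 589824 * (1 + (CP.wt w x : ℝ)) ^ 18 := by ring
    _ ≤ 589824 * (1 + (len x : ℝ)) ^ 18 := by gcongr

theorem rd_real : ∃ (C : ℝ) (s : ℕ), ∀ f g : Gm →₀ ℝ, ∀ T : Finset Gm,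
    ∑ x ∈ T, (f.sum (fun y a => a * g (y⁻¹ * x))) ^ 2 ≤
      C * (f.sum (fun x a => a ^ 2 * (1 + ((len x : ℕ) : ℝ)) ^ (2 * s))) *
        g.sum (fun _ a => a ^ 2) := by
  refine ⟨Theta.toReal * 589824, 9, fun f g T => ?_⟩
  set F : Gm → ℝ≥0∞ := fun y => ENNReal.ofReal |f y| with hF
  set X : Gm → ℝ≥0∞ := fun y => ENNReal.ofReal |g y| with hX
  have hmain := rd_ennreal F X
  have hL : ENNReal.ofReal (∑ x ∈ T, (f.sum (fun y a => a * g (y⁻¹ * x))) ^ 2) ≤
      ∑' g, (∑' h, F h * X (h⁻¹ * g)) ^ 2 := by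
    rw [ENNReal.ofReal_sum_of_nonneg (fun _ _ => sq_nonneg _)]
    refine le_trans ?_ (ENNReal.sum_le_tsum T)
    apply Finset.sum_le_sum
    intro x _
    rw [← sq_abs, ENNReal.ofReal_pow (abs_nonneg _)]
    gcongr
    calc ENNReal.ofReal |f.sum (fun y a => a * g (y⁻¹ * x))|
        ≤ ENNReal.ofReal (∑ y ∈ f.support, |f y| * |g (y⁻¹ * x)|) := by
          apply ENNReal.ofReal_le_ofReal
          unfold Finsupp.sum
          refine (Finset.abs_sum_le_sum_abs _ _).trans (le_of_eq ?_)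
          apply Finset.sum_congr rfl
          intro y _
          exact abs_mul _ _
      _ = ∑ y ∈ f.support, F y * X (y⁻¹ * x) := by
          rw [ENNReal.ofReal_sum_of_nonneg (fun _ _ => by positivity)]
          apply Finset.sum_congr rfl
          intro y _
          rw [ENNReal.ofReal_mul (abs_nonneg _)]
      _ ≤ _ := ENNReal.sum_le_tsum _
  have hR1 : ∑' h, F h ^ 2 * ((1 + (CP.wt w h : ℝ≥0∞)) ^ 2 *
        ((Box (CP.wt w h)).card : ℝ≥0∞) ^ 2) ≤
      ENNReal.ofReal (589824 * f.sum (fun x a => a ^ 2 * (1 + ((len x : ℕ) : ℝ)) ^ (2 * 9))) := by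
    rw [tsum_eq_sum (s := f.support)]
    · unfold Finsupp.sum
      rw [Finset.mul_sum, ENNReal.ofReal_sum_of_nonneg (fun _ _ => by positivity)]
      apply Finset.sum_le_sum
      intro x _
      have h1 : F x ^ 2 * ((1 + (CP.wt w x : ℝ≥0∞)) ^ 2 * ((Box (CP.wt w x)).card : ℝ≥0∞) ^ 2) =
          ENNReal.ofReal ((f x) ^ 2 * ((1 + (CP.wt w x : ℝ)) ^ 2 *
            ((Box (CP.wt w x)).card : ℝ) ^ 2)) := by
        have e1 : ENNReal.ofReal ((f x) ^ 2) = F x ^ 2 := by
          rw [← sq_abs, ENNReal.ofReal_pow (abs_nonneg _)]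
        have e2 : ENNReal.ofReal ((1 + (CP.wt w x : ℝ)) ^ 2) = (1 + (CP.wt w x : ℝ≥0∞)) ^ 2 := by
          rw [ENNReal.ofReal_pow (by positivity), ENNReal.ofReal_add (by norm_num) (by positivity),
            ENNReal.ofReal_one, ENNReal.ofReal_natCast]
        have e3 : ENNReal.ofReal (((Box (CP.wt w x)).card : ℝ) ^ 2) =
            ((Box (CP.wt w x)).card : ℝ≥0∞) ^ 2 := by
          rw [ENNReal.ofReal_pow (by positivity), ENNReal.ofReal_natCast]
        rw [ENNReal.ofReal_mul (sq_nonneg _), ENNReal.ofReal_mul (by positivity), e1, e2, e3]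
      rw [h1]
      apply ENNReal.ofReal_le_ofReal
      have h2 := box_bound x
      calc f x ^ 2 * ((1 + (CP.wt w x : ℝ)) ^ 2 * ((Box (CP.wt w x)).card : ℝ) ^ 2)
          ≤ f x ^ 2 * (589824 * (1 + (len x : ℝ)) ^ 18) := by gcongr
        _ = _ := by ring
    · intro x hx
      have : f x = 0 := by simpa using hx
      simp [hF, this]
  have hR2 : ∑' k, X k ^ 2 = ENNReal.ofReal (g.sum (fun _ a => a ^ 2)) := by
    rw [tsum_eq_sum (s := g.support)]
    · unfold Finsupp.sum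
      rw [ENNReal.ofReal_sum_of_nonneg (fun _ _ => by positivity)]
      apply Finset.sum_congr rfl
      intro x _
      simp only [hX]
      rw [← ENNReal.ofReal_pow (abs_nonneg _), sq_abs]
    · intro x hx
      have : g x = 0 := by simpa using hx
      simp [hX, this]
  have hfin : ENNReal.ofReal (∑ x ∈ T, (f.sum (fun y a => a * g (y⁻¹ * x))) ^ 2) ≤
      ENNReal.ofReal (Theta.toReal * 589824 *
        (f.sum (fun x a => a ^ 2 * (1 + ((len x : ℕ) : ℝ)) ^ (2 * 9))) *
        g.sum (fun _ a => a ^ 2)) := by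
    refine hL.trans (hmain.trans ?_)
    rw [hR2]
    have hnn1 : 0 ≤ f.sum (fun x a => a ^ 2 * (1 + ((len x : ℕ) : ℝ)) ^ (2 * 9)) :=
      Finset.sum_nonneg (fun _ _ => by positivity)
    have h3 : ENNReal.ofReal (Theta.toReal * 589824 *
        (f.sum (fun x a => a ^ 2 * (1 + ((len x : ℕ) : ℝ)) ^ (2 * 9))) *
        g.sum (fun _ a => a ^ 2)) = Theta * ENNReal.ofReal (589824 *
        (f.sum (fun x a => a ^ 2 * (1 + ((len x : ℕ) : ℝ)) ^ (2 * 9)))) *
        ENNReal.ofReal (g.sum (fun _ a => a ^ 2)) := by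
      rw [ENNReal.ofReal_mul (by positivity), mul_assoc Theta.toReal,
        ENNReal.ofReal_mul ENNReal.toReal_nonneg, ENNReal.ofReal_toReal Theta_ne_top]
    rw [h3]
    gcongr
  rwa [ENNReal.ofReal_le_ofReal_iff] at hfin
  have h1 : 0 ≤ f.sum (fun x a => a ^ 2 * (1 + ((len x : ℕ) : ℝ)) ^ (2 * 9)) :=
      Finset.sum_nonneg (fun _ _ => by positivity)
  have h2 : 0 ≤ g.sum (fun _ a => a ^ 2) := Finset.sum_nonneg (fun _ _ => by positivity)
  positivity

end Pool.Agent.U131.RD
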