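import Pool.Agent.U131.RD.Disc

open MeasureTheory Set Monoid
open scoped ENNReal

namespace Pool.Agent.U131.RD

open Pool.Agent.Helper509.RD

/-- the free abelian group of rank six, written multiplicatively -/
abbrev A : Type := Multiplicative (Fin 6 → ℤ)

/-- the constant family -/
abbrev MM : Bool → Type := fun _ => A

/-- the free product of two copies -/
abbrev Gm : Type := CoprodI MM

instance instCountA : Countable A := inferInstanceAs (Countable (Fin 6 → ℤ))

instance instCountGm : Countable Gm := by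
  have : Countable (Σ i, MM i) := inferInstanceAs (Countable (Σ _ : Bool, A))
  have h : Function.Surjective (CP.prodL : List (Σ i, MM i) → Gm) := fun a => ⟨CP.nf a, CP.prodL_nf a⟩
  exact h.countable

/-- the weight of a syllable -/
def w (s : Σ i, MM i) : ℕ := ∑ i, (Multiplicative.toAdd s.2 i).natAbs

lemma w_mul (i : Bool) (m m' : A) : w ⟨i, m * m'⟩ ≤ w ⟨i, m⟩ + w ⟨i, m'⟩ := by
  unfold w
  rw [← Finset.sum_add_distrib]
  apply Finset.sum_le_sum
  intro j _
  simp only [toAdd_mul, Pi.add_apply]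
  exact Int.natAbs_add_le _ _

lemma w_pos (s : Σ i, MM i) (h : s.2 ≠ 1) : 1 ≤ w s := by
  by_contra hc
  have h0 : w s = 0 := by omega
  apply h
  unfold w at h0
  rw [Finset.sum_eq_zero_iff] at h0
  apply Multiplicative.toAdd.injective
  funext j
  have := h0 j (Finset.mem_univ _)
  simpa using this

/-- the ball in the factor -/
noncomputable def ball (L : ℕ) : Finset A :=
  (Fintype.piFinset (fun _ : Fin 6 => Finset.Icc (-(L : ℤ)) L)).map Multiplicative.ofAdd.toEmbedding

lemma mem_ball {L : ℕ} {s : Σ i, MM i} (h : w s ≤ L) : s.2 ∈ ball L := by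
  unfold ball
  rw [Finset.mem_map]
  refine ⟨Multiplicative.toAdd s.2, ?_, rfl⟩
  rw [Fintype.mem_piFinset]
  intro j
  have h1 : (Multiplicative.toAdd s.2 j).natAbs ≤ w s :=
    Finset.single_le_sum (f := fun i => (Multiplicative.toAdd s.2 i).natAbs) (fun _ _ => Nat.zero_le _) (Finset.mem_univ j)
  rw [Finset.mem_Icc]
  omega

lemma card_ball (L : ℕ) : (ball L).card = (2 * L + 1) ^ 6 := by
  unfold ball
  rw [Finset.card_map, Fintype.card_piFinset]
  simp only [Int.card_Icc, Finset.prod_const, Finset.card_univ, Fintype.card_fin]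
  congr 1
  omega

/-- the labels -/
abbrev Lam : Type := ℕ × ℕ × Option (Σ i, MM i)

/-- the boxes -/
noncomputable def Box (L : ℕ) : Finset Lam :=
  Finset.range (L + 1) ×ˢ Finset.range (L + 1) ×ˢ
    Finset.insertNone ((Finset.univ : Finset Bool).sigma (fun _ => ball L))

lemma card_Box (L : ℕ) : (Box L).card ≤ 3 * (2 * L + 2) ^ 8 := by
  unfold Box
  rw [Finset.card_product, Finset.card_product, Finset.card_range, Finset.card_insertNone,
    Finset.card_sigma]
  simp only [card_ball, Finset.sum_const, Finset.card_univ, Fintype.card_bool, smul_eq_mul]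
  have h1 : 2 * (2 * L + 1) ^ 6 + 1 ≤ 3 * (2 * L + 2) ^ 6 := by
    have : (2 * L + 1) ^ 6 ≤ (2 * L + 2) ^ 6 := Nat.pow_le_pow_left (by omega) 6
    have h2 : 1 ≤ (2 * L + 2) ^ 6 := Nat.one_le_pow _ _ (by omega)
    omega
  calc (L + 1) * ((L + 1) * (2 * (2 * L + 1) ^ 6 + 1))
      ≤ (2 * L + 2) * ((2 * L + 2) * (3 * (2 * L + 2) ^ 6)) := by
        gcongr <;> omega
    _ = 3 * (2 * L + 2) ^ 8 := by ring

/-- good elements for a label -/
def good : Lam → Set Gm
  | (i, j, none) => {h | i + j = (CP.nf h).length}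
  | (i, j, some s) => {h | i + 1 + j = (CP.nf h).length ∧ (CP.nf h)[i]? = some s}

theorem rd_ennreal (f ξ : Gm → ℝ≥0∞) :
    ∑' g, (∑' h, f h * ξ (h⁻¹ * g)) ^ 2 ≤
      Theta * (∑' h, f h ^ 2 * ((1 + CP.wt w h : ℝ≥0∞) ^ 2 *
        ((Box (CP.wt w h)).card : ℝ≥0∞) ^ 2)) * ∑' k, ξ k ^ 2 := by
  refine centers_disc (CP.wt w) Box good (fun x => CP.pre x.1) (fun x => CP.pre x.2.1) ?_ ?_ f ξ
  · rintro ⟨i, j, o⟩ c d
    cases o with
    | none =>
      refine ⟨c * d⁻¹, ?_⟩
      rintro h h1 h2 h3
      simp only at h2 h3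
      have h1' : i + j = (CP.nf h).length := h1
      rw [CP.pre_inv h1'] at h3
      rw [← h2, ← h3]
      group
    | some s =>
      refine ⟨c * CoprodI.of s.2 * d⁻¹, ?_⟩
      rintro h ⟨h1, h1'⟩ h2 h3
      simp only at h2 h3
      have := CP.decomp h1 h1'
      rw [h2, h3] at this
      exact this
  · intro h k
    obtain ⟨i, j, h1, h2, h3⟩ := CP.tripod h k
    have hl : (CP.nf h).length ≤ CP.wt w h := CP.length_le_wt w_pos h
    rcases h3 with h3 | ⟨h3, _⟩
    · refine ⟨(i, j, none), ?_, h3, h1, h2⟩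
      unfold Box
      simp only [Finset.mem_product, Finset.mem_range, Finset.mem_insertNone, reduceCtorEq,
        false_implies, implies_true, and_true, Option.mem_def]
      omega
    · have hi : i < (CP.nf h).length := by omega
      refine ⟨(i, j, some ((CP.nf h)[i])), ?_, ⟨h3, List.getElem?_eq_getElem hi⟩, h1, h2⟩
      unfold Box
      simp only [Finset.mem_product, Finset.mem_range, Finset.mem_insertNone, Option.mem_def]
      refine ⟨by omega, by omega, ?_⟩
      rintro a ha
      simp only [Option.some.injEq] at ha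
      subst ha
      rw [Finset.mem_sigma]
      refine ⟨Finset.mem_univ _, mem_ball ?_⟩
      exact CP.le_wt (List.getElem_mem hi)

end Pool.Agent.U131.RD
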