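import Pool.Agent.U131.RD.Crit

open Set Filter Topology

namespace Pool.Agent.U131.RD

/-- the argument of the series, squared -/
noncomputable def xx (u : ℝ) : ℝ := (Z 1 / Z (1 - u)) ^ 2

/-- bounds for `1 - xx u` -/
lemma eps_bounds {u : ℝ} (h0 : 0 < u) (h1 : u ≤ 1 / 2) (hZ : Z 1 ≤ Z (1 - u)) :
    0 < xx u ∧ xx u ≤ 1 ∧ (Z (1 - u) - Z 1) / (2 + κ) ≤ 1 - xx u ∧
      1 - xx u ≤ 2 * (Z (1 - u) - Z 1) := by
  have a1 := Z_ge zero_lt_one le_rfl
  have a2 := Z_ge (w := 1 - u) (by linarith) (by linarith)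
  have a3 := Z_le (w := 1 - u) (by linarith)
  have hk := κ_pos
  have hp : 0 < Z 1 / Z (1 - u) := by positivity
  have hle : Z 1 / Z (1 - u) ≤ 1 := by rw [div_le_one (by linarith)]; exact hZ
  have e : 1 - Z 1 / Z (1 - u) = (Z (1 - u) - Z 1) / Z (1 - u) := by
    field_simp
  unfold xx
  refine ⟨by positivity, pow_le_one₀ hp.le hle, ?_, ?_⟩
  · calc (Z (1 - u) - Z 1) / (2 + κ) ≤ (Z (1 - u) - Z 1) / Z (1 - u) := by
          apply div_le_div_of_nonneg_left (by linarith) (by linarith) a3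
      _ = 1 - Z 1 / Z (1 - u) := e.symm
      _ ≤ 1 - (Z 1 / Z (1 - u)) ^ 2 := by nlinarith
  · have h2 : 1 - (Z 1 / Z (1 - u)) ^ 2 ≤ 2 * (1 - Z 1 / Z (1 - u)) := by nlinarith
    refine h2.trans ?_
    rw [e]
    have : (Z (1 - u) - Z 1) / Z (1 - u) ≤ Z (1 - u) - Z 1 := by
      apply div_le_self (by linarith) a2
    linarith

section
variable {b : ℕ → ℝ} (hb : ∀ n, 0 ≤ b n) (hsum : ∀ N, ∑ n ∈ Finset.range N, b n ≤ Phi 1)
  (hw : ∃ u0 : ℝ, 0 < u0 ∧ ∀ u, 0 < u → u < u0 → HasSum (fun n => b n * (xx u) ^ n) (Phi (1 - u)))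
include hb hsum hw

omit hw in
lemma b_summable' : Summable b := summable_of_sum_range_le hb hsum

omit hw in
lemma tsum_le_Phi : ∑' n, b n ≤ Phi 1 := Real.tsum_le_of_sum_range_le hb hsum

lemma caseI (h : ∃ c : ℝ, 0 < c ∧ ∃ n0 : ℕ, ∀ n ≥ n0, c * (n : ℝ) ^ (-(3 / 2) : ℝ) ≤ b n) : False := by
  obtain ⟨c, hc, n0, hbn⟩ := h
  obtain ⟨u0, hu0, hS⟩ := hw
  obtain ⟨C, hC, hPhi⟩ := Phi_lip
  obtain ⟨C1, hC1, hZs⟩ := Z_small (δ := 1) one_pos le_rfl
  have hk := κ_pos
  obtain ⟨u1, hu1, hu12, hZl⟩ := Z_large ((2 + κ) * (64 * C ^ 2 / c ^ 2 + 1))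
  -- choose u
  set u : ℝ := min (min (u0 / 2) (u1 / 2)) (1 / (2 * C1 * (n0 + 1))) with hu
  have hupos : 0 < u := by
    rw [hu]
    positivity
  have hu_a : u < u0 := by
    have : u ≤ u0 / 2 := (min_le_left _ _).trans (min_le_left _ _)
    linarith
  have hu_b : u < u1 := by
    have : u ≤ u1 / 2 := (min_le_left _ _).trans (min_le_right _ _)
    linarith
  have hu_c : 2 * C1 * (n0 + 1) * u ≤ 1 := by
    have : u ≤ 1 / (2 * C1 * (n0 + 1)) := min_le_right _ _
    rw [le_div_iff₀ (by positivity)] at this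
    linarith
  have hu_d : u ≤ 1 / 2 := by linarith
  have hZ1 := hZl u hupos hu_b
  have hKpos : 0 < (2 + κ) * (64 * C ^ 2 / c ^ 2 + 1) * u ^ 2 := by positivity
  have hZlt : Z 1 < Z (1 - u) := by linarith
  obtain ⟨hx0, hx1, he1, he2⟩ := eps_bounds hupos hu_d hZlt.le
  set x := xx u with hx
  set ε := 1 - x with hε
  have hεpos : 0 < ε := by
    have : 0 < (Z (1 - u) - Z 1) / (2 + κ) := by
      apply div_pos <;> linarith
    linarith
  have hεu : ε ≤ 2 * C1 * u := by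
    have := hZs u hupos hu_d
    have e : u ^ ((2 : ℝ) - 1) = u := by
      have : (2 : ℝ) - 1 = 1 := by norm_num
      rw [this, Real.rpow_one]
    rw [e] at this
    linarith
  have hεn : ε * (n0 + 1) ≤ 1 := by
    have hn : (0:ℝ) ≤ n0 := Nat.cast_nonneg _
    calc ε * (n0 + 1) ≤ 2 * C1 * u * (n0 + 1) := by gcongr
      _ = 2 * C1 * (n0 + 1) * u := by ring
      _ ≤ 1 := hu_c
  -- N
  set N : ℕ := ⌈1 / ε⌉₊ with hN
  have hN1 : 1 / ε ≤ N := Nat.le_ceil _
  have hN2 : (N : ℝ) ≤ 2 / ε := by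
    have := Nat.ceil_lt_add_one (a := 1 / ε) (by positivity)
    have h1 : 1 ≤ 1 / ε := by
      rw [le_div_iff₀ hεpos]
      have hn : (0:ℝ) ≤ n0 := Nat.cast_nonneg _
      nlinarith
    have h2 : 2 / ε = 1 / ε + 1 / ε := by ring
    rw [h2]
    linarith
  have hNpos : (0 : ℝ) < N := lt_of_lt_of_le (by positivity) hN1
  have hN0 : n0 ≤ N := by
    have h1 : (n0 : ℝ) + 1 ≤ 1 / ε := by
      rw [le_div_iff₀ hεpos]
      linarith
    have : (n0 : ℝ) ≤ N := by linarith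
    exact_mod_cast this
  have hNε : 1 ≤ N * ε := by
    rw [div_le_iff₀ hεpos] at hN1
    exact hN1
  -- x^N ≤ 1/2
  have hxN : x ^ N ≤ 1 / 2 := by
    have h1 : (1 + (N : ℝ) * ε) ≤ (1 + ε) ^ N := one_add_mul_le_pow (by linarith) N
    have h2 : x ^ N * (1 + ε) ^ N ≤ 1 := by
      rw [← mul_pow]
      apply pow_le_one₀
      · positivity
      · have : x = 1 - ε := by rw [hε]; ring
        rw [this]
        nlinarith [sq_nonneg ε]
    have h3 : 2 ≤ (1 + ε) ^ N := by linarith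
    have h4 : 0 ≤ x ^ N := by positivity
    nlinarith
  -- lower bound of the difference
  have hsb := b_summable' hb hsum
  have hsx := (hS u hupos hu_a)
  have hdiff : HasSum (fun n => b n * (1 - x ^ n)) (∑' n, b n - Phi (1 - u)) := by
    have h1 := hsb.hasSum.sub hsx
    have h2 : (fun n => b n - b n * xx u ^ n) = fun n => b n * (1 - x ^ n) := by
      funext n; rw [hx]; ring
    rwa [h2] at h1
  have hterm0 : ∀ n, 0 ≤ b n * (1 - x ^ n) := fun n =>
    mul_nonneg (hb n) (by have := pow_le_one₀ hx0.le hx1 (n := n); linarith)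
  have hlow := hdiff.summable.sum_le_tsum (Finset.Ico N (2 * N)) (fun n _ => hterm0 n)
  rw [hdiff.tsum_eq] at hlow
  have hterm : ∀ n ∈ Finset.Ico N (2 * N), c * ((2 * N : ℝ)) ^ (-(3 / 2) : ℝ) * (1 / 2) ≤
      b n * (1 - x ^ n) := by
    intro n hn
    rw [Finset.mem_Ico] at hn
    have h1 := hbn n (hN0.trans hn.1)
    have hn1 : (N : ℝ) ≤ n := by exact_mod_cast hn.1
    have hn2 : (n : ℝ) ≤ 2 * N := by exact_mod_cast hn.2.le
    have hnp : (0 : ℝ) < n := by linarith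
    have h2 : ((2 * N : ℝ)) ^ (-(3 / 2) : ℝ) ≤ (n : ℝ) ^ (-(3 / 2) : ℝ) :=
      Real.rpow_le_rpow_of_nonpos hnp hn2 (by norm_num)
    have h3 : x ^ n ≤ x ^ N := pow_le_pow_of_le_one hx0.le hx1 hn.1
    have h4 : c * ((2 * N : ℝ)) ^ (-(3 / 2) : ℝ) ≤ b n := by
      refine le_trans ?_ h1
      gcongr
    apply mul_le_mul h4 (by linarith) (by norm_num) (hb n)
  have hcard := Finset.card_nsmul_le_sum _ _ _ hterm
  rw [Nat.card_Ico, nsmul_eq_mul] at hcard
  have hc2 : ((2 * N - N : ℕ) : ℝ) = N := by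
    have : 2 * N - N = N := by omega
    rw [this]
  rw [hc2] at hcard
  set T : ℝ := (N : ℝ) * (c * ((2 * N : ℝ)) ^ (-(3 / 2) : ℝ) * (1 / 2)) with hT
  have hTpos : 0 ≤ T := by rw [hT]; positivity
  have hTsq : T ^ 2 = c ^ 2 / (32 * N) := by
    have h1 : (((2 * N : ℝ)) ^ (-(3 / 2) : ℝ)) ^ 2 = ((2 * N : ℝ) ^ 3)⁻¹ := by
      rw [← Real.rpow_natCast, ← Real.rpow_mul (by positivity), ← Real.rpow_natCast,
        ← Real.rpow_neg (by positivity)]
      norm_num
    rw [hT]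
    calc (N * (c * ((2 * N : ℝ)) ^ (-(3 / 2) : ℝ) * (1 / 2))) ^ 2
        = N ^ 2 * c ^ 2 * (((2 * N : ℝ)) ^ (-(3 / 2) : ℝ)) ^ 2 * (1 / 4) := by ring
      _ = c ^ 2 / (32 * N) := by
        rw [h1]
        field_simp
        norm_num
  have hup : ∑' n, b n - Phi (1 - u) ≤ C * u := by
    have := tsum_le_Phi hb hsum
    have := hPhi u hupos.le hu_d
    linarith
  have hTle : T ≤ C * u := by linarith
  have hsq : T ^ 2 ≤ (C * u) ^ 2 := by gcongr
  rw [hTsq] at hsq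
  have h5 : c ^ 2 * ε / 64 ≤ (C * u) ^ 2 := by
    refine le_trans ?_ hsq
    rw [div_le_div_iff₀ (by norm_num) (by positivity)]
    have h6 : (N : ℝ) * ε ≤ 2 := by
      rw [le_div_iff₀ hεpos] at hN2
      exact hN2
    nlinarith [sq_nonneg c]
  have h7 : (64 * C ^ 2 / c ^ 2 + 1) * u ^ 2 ≤ ε := by
    refine le_trans ?_ he1
    rw [le_div_iff₀ (by linarith)]
    linarith
  have h8 : c ^ 2 * ((64 * C ^ 2 / c ^ 2 + 1) * u ^ 2) / 64 ≤ (C * u) ^ 2 := by
    refine le_trans ?_ h5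
    gcongr
  have h9 : c ^ 2 * ((64 * C ^ 2 / c ^ 2 + 1) * u ^ 2) / 64 = (C * u) ^ 2 + c ^ 2 * u ^ 2 / 64 := by
    field_simp
  rw [h9] at h8
  have : 0 < c ^ 2 * u ^ 2 / 64 := by positivity
  linarith

lemma caseII (h : ∃ C δ : ℝ, 0 < δ ∧ δ ≤ 1 / 2 ∧ ∃ n0 : ℕ, ∀ n ≥ n0,
    b n ≤ C * (n : ℝ) ^ (-(3 / 2 + δ) : ℝ)) : False := by
  obtain ⟨C, δ, hδ, hδ2, n0, hbn⟩ := h
  obtain ⟨u0, hu0, hS⟩ := hw
  obtain ⟨C1, hC1, hZs⟩ := Z_small (δ := δ) hδ (by linarith)
  have hk := κ_pos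
  obtain ⟨u1, hu1, hu12, hZl⟩ := Z_large 1
  have hsb := b_summable' hb hsum
  set S := ∑' n, b n with hSdef
  have hS0 : 0 ≤ S := tsum_nonneg hb
  -- uniform bound
  obtain ⟨C', hC', hbC⟩ : ∃ C' : ℝ, 0 < C' ∧ ∀ n : ℕ, 1 ≤ n →
      b n ≤ C' * (n : ℝ) ^ (-(3 / 2 + δ) : ℝ) := by
    refine ⟨|C| + S * ((n0 : ℝ) + 1) ^ (3 / 2 + δ) + 1, by positivity, ?_⟩
    intro n hn
    have hnp : (0:ℝ) < n := by exact_mod_cast hn
    have hp : 0 < (n : ℝ) ^ (-(3 / 2 + δ) : ℝ) := by positivity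
    by_cases h : n0 ≤ n
    · refine (hbn n h).trans ?_
      apply mul_le_mul_of_nonneg_right _ hp.le
      have h1 := le_abs_self C
      have h2 : 0 ≤ S * ((n0 : ℝ) + 1) ^ (3 / 2 + δ) := by positivity
      linarith
    · push Not at h
      have h1 : b n ≤ S := hsb.le_tsum n (fun j _ => hb j)
      have h2 : (1 : ℝ) ≤ ((n0 : ℝ) + 1) ^ (3 / 2 + δ) * (n : ℝ) ^ (-(3 / 2 + δ) : ℝ) := by
        rw [Real.rpow_neg hnp.le, ← div_eq_mul_inv, le_div_iff₀ (by positivity), one_mul]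
        apply Real.rpow_le_rpow hnp.le _ (by linarith)
        have : (n : ℝ) < n0 := by exact_mod_cast h
        linarith
      calc b n ≤ S * 1 := by linarith
        _ ≤ S * (((n0 : ℝ) + 1) ^ (3 / 2 + δ) * (n : ℝ) ^ (-(3 / 2 + δ) : ℝ)) := by gcongr
        _ = S * ((n0 : ℝ) + 1) ^ (3 / 2 + δ) * (n : ℝ) ^ (-(3 / 2 + δ) : ℝ) := by ring
        _ ≤ _ := by
          apply mul_le_mul_of_nonneg_right _ hp.le
          have := abs_nonneg C
          linarith
  set θ : ℝ := 1 / 2 + δ / 2 with hθ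
  have hTs : Summable (fun n : ℕ => 1 / (n : ℝ) ^ (1 + δ / 2)) :=
    Real.summable_one_div_nat_rpow.mpr (by linarith)
  set T := ∑' n : ℕ, 1 / (n : ℝ) ^ (1 + δ / 2) with hT
  have hT0 : 0 ≤ T := tsum_nonneg (fun n => by positivity)
  -- main inequality
  have main : ∀ u, 0 < u → u < min u0 u1 →
      1 / 128 * u ≤ C' * T * (2 * C1) ^ θ * (u * u ^ ((δ - δ ^ 2) / 2)) := by
    intro u hupos huu
    have hu_a : u < u0 := huu.trans_le (min_le_left _ _)
    have hu_b : u < u1 := huu.trans_le (min_le_right _ _)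
    have hu_d : u ≤ 1 / 2 := by linarith
    have hZ1 := hZl u hupos hu_b
    have hZlt : Z 1 < Z (1 - u) := by nlinarith [sq_pos_of_pos hupos]
    obtain ⟨hx0, hx1, he1, he2⟩ := eps_bounds hupos hu_d hZlt.le
    set x := xx u with hx
    set ε := 1 - x with hε
    have hε0 : 0 ≤ ε := by rw [hε]; linarith
    have hsx := (hS u hupos hu_a)
    have hdiff : HasSum (fun n => b n * (1 - x ^ n)) (∑' n, b n - Phi (1 - u)) := by
      have h1 := hsb.hasSum.sub hsx
      have h2 : (fun n => b n - b n * xx u ^ n) = fun n => b n * (1 - x ^ n) := by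
        funext n; rw [hx]; ring
      rwa [h2] at h1
    -- lower bound
    have hlow : 1 / 128 * u ≤ ∑' n, b n - Phi (1 - u) := by
      have h1 := Phi_inc hupos hu_d
      have h2 : Phi (1 - u / 2) ≤ ∑' n, b n := by
        have h3 := hS (u / 2) (by linarith) (by linarith)
        rw [← h3.tsum_eq]
        refine h3.summable.tsum_le_tsum (fun n => ?_) hsb
        have hZ2 := hZl (u / 2) (by linarith) (by linarith)
        have hZlt2 : Z 1 < Z (1 - u / 2) := by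
          have : 0 < (u / 2) ^ 2 := by positivity
          linarith
        obtain ⟨hy0, hy1, _, _⟩ := eps_bounds (u := u / 2) (by linarith) (by linarith) hZlt2.le
        have := pow_le_one₀ hy0.le hy1 (n := n)
        have := hb n
        nlinarith
      linarith
    -- upper bound
    have hup : ∑' n, b n - Phi (1 - u) ≤ C' * T * ε ^ θ := by
      rw [← hdiff.tsum_eq]
      have hs2 : Summable (fun n : ℕ => C' * ε ^ θ * (1 / (n : ℝ) ^ (1 + δ / 2))) := hTs.mul_left _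
      have e1 : C' * T * ε ^ θ = ∑' n : ℕ, C' * ε ^ θ * (1 / (n : ℝ) ^ (1 + δ / 2)) := by
        rw [tsum_mul_left]; ring
      rw [e1]
      refine hdiff.summable.tsum_le_tsum (fun n => ?_) hs2
      rcases Nat.eq_zero_or_pos n with hn | hn
      · subst hn
        simp only [pow_zero, sub_self, mul_zero]
        positivity
      · have hnp : (0:ℝ) < n := by exact_mod_cast hn
        have h3 : 1 - x ^ n ≤ ((n : ℝ) * ε) ^ θ := by
          have h4 : 1 - x ^ n ≤ n * ε := by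
            have := one_add_mul_le_pow (a := -ε) (by linarith) n
            have e : 1 + -ε = x := by rw [hε]; ring
            rw [e] at this
            linarith
          have h5 : 1 - x ^ n ≤ 1 := by have : 0 ≤ x ^ n := by positivity
                                        linarith
          rcases le_total ((n : ℝ) * ε) 1 with h6 | h6
          · refine h4.trans ?_
            rcases eq_or_lt_of_le (mul_nonneg hnp.le hε0) with h7 | h7
            · rw [← h7, Real.zero_rpow (by rw [hθ]; linarith)]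
            · conv_lhs => rw [← Real.rpow_one ((n : ℝ) * ε)]
              exact Real.rpow_le_rpow_of_exponent_ge h7 h6 (by rw [hθ]; linarith)
          · refine h5.trans ?_
            exact Real.one_le_rpow h6 (by rw [hθ]; linarith)
        rw [Real.mul_rpow hnp.le hε0] at h3
        have h8 : (n : ℝ) ^ (-(3 / 2 + δ) : ℝ) * (n : ℝ) ^ θ = 1 / (n : ℝ) ^ (1 + δ / 2) := by
          rw [← Real.rpow_add hnp, one_div, ← Real.rpow_neg hnp.le]
          congr 1
          rw [hθ]; ring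
        have h9 : 0 ≤ 1 - x ^ n := by
          have := pow_le_one₀ hx0.le hx1 (n := n)
          linarith
        calc b n * (1 - x ^ n) ≤ (C' * (n : ℝ) ^ (-(3 / 2 + δ) : ℝ)) * ((n : ℝ) ^ θ * ε ^ θ) := by
              apply mul_le_mul (hbC n hn) h3 h9 (by positivity)
          _ = C' * ε ^ θ * ((n : ℝ) ^ (-(3 / 2 + δ) : ℝ) * (n : ℝ) ^ θ) := by ring
          _ = _ := by rw [h8]
    have hε3 : ε ≤ 2 * C1 * u ^ (2 - δ) := by
      have := hZs u hupos hu_d
      linarith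
    have hθ0 : 0 < θ := by rw [hθ]; linarith
    have h10 : ε ^ θ ≤ (2 * C1) ^ θ * (u * u ^ ((δ - δ ^ 2) / 2)) := by
      calc ε ^ θ ≤ (2 * C1 * u ^ (2 - δ)) ^ θ := Real.rpow_le_rpow hε0 hε3 hθ0.le
        _ = (2 * C1) ^ θ * (u ^ (2 - δ)) ^ θ := Real.mul_rpow (by positivity) (by positivity)
        _ = (2 * C1) ^ θ * (u * u ^ ((δ - δ ^ 2) / 2)) := by
          congr 1
          rw [← Real.rpow_mul hupos.le]
          conv_rhs => rw [← Real.rpow_one u, ← Real.rpow_mul hupos.le, ← Real.rpow_add hupos]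
          congr 1
          rw [hθ]; ring
    calc 1 / 128 * u ≤ C' * T * ε ^ θ := hlow.trans hup
      _ ≤ C' * T * ((2 * C1) ^ θ * (u * u ^ ((δ - δ ^ 2) / 2))) := by gcongr
      _ = _ := by ring
  -- let u tend to zero
  have hexp : 0 < (δ - δ ^ 2) / 2 := by nlinarith
  have hlim : Tendsto (fun u : ℝ => C' * T * (2 * C1) ^ θ * u ^ ((δ - δ ^ 2) / 2)) (𝓝[>] 0) (𝓝 0) := by
    have h1 : Tendsto (fun u : ℝ => u ^ ((δ - δ ^ 2) / 2)) (𝓝 0) (𝓝 0) := by
      have := (Real.continuousAt_rpow_const 0 ((δ - δ ^ 2) / 2) (Or.inr hexp.le)).tendsto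
      rwa [Real.zero_rpow hexp.ne'] at this
    have h2 := (h1.mono_left (nhdsWithin_le_nhds (s := Ioi 0))).const_mul (C' * T * (2 * C1) ^ θ)
    rwa [mul_zero] at h2
  have hev : ∀ᶠ u : ℝ in 𝓝[>] 0, (1 / 128 : ℝ) ≤ C' * T * (2 * C1) ^ θ * u ^ ((δ - δ ^ 2) / 2) := by
    have h1 : Ioo (0:ℝ) (min u0 u1) ∈ 𝓝[>] (0:ℝ) := Ioo_mem_nhdsGT (lt_min hu0 hu1)
    filter_upwards [h1] with u hu
    have h2 := main u hu.1 hu.2
    have h3 : u * (1 / 128) ≤ u * (C' * T * (2 * C1) ^ θ * u ^ ((δ - δ ^ 2) / 2)) := by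
      linarith
    exact le_of_mul_le_mul_left h3 hu.1
  have := ge_of_tendsto hlim hev
  norm_num at this

/-- no pure power law -/
theorem series_contra (c d r : ℝ) (hc : 0 < c) (hr : 0 ≤ r)
    (hequiv : Asymptotics.IsEquivalent atTop b (fun n : ℕ => c * (n : ℝ) ^ (-d) * r ^ (2 * n))) :
    False := by
  set v : ℕ → ℝ := fun n => c * (n : ℝ) ^ (-d) * r ^ (2 * n) with hv
  have hv0 : ∀ n, 0 ≤ v n := fun n => by rw [hv]; positivity
  have h1 : ∀ᶠ n in atTop, ‖b n - v n‖ ≤ 1 / 2 * ‖v n‖ :=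
    hequiv.isLittleO.def (by norm_num)
  have h2 : ∀ᶠ n in atTop, v n / 2 ≤ b n ∧ b n ≤ 2 * v n := by
    filter_upwards [h1] with n hn
    rw [Real.norm_eq_abs, Real.norm_eq_abs, abs_of_nonneg (hv0 n), abs_le] at hn
    have := hv0 n
    constructor <;> linarith [hn.1, hn.2]
  rcases lt_trichotomy r 1 with hr1 | hr1 | hr1
  · -- exponential decay
    apply caseII hb hsum hw
    refine ⟨2 * c, 1 / 2, by norm_num, le_rfl, ?_⟩
    have hq : |r ^ 2| < 1 := by
      rw [abs_of_nonneg (sq_nonneg r)]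
      nlinarith
    obtain ⟨k, hk⟩ := exists_nat_gt (2 - d)
    have h3 := tendsto_pow_const_mul_const_pow_of_abs_lt_one k hq
    have h4 : ∀ᶠ n : ℕ in atTop, (n : ℝ) ^ k * (r ^ 2) ^ n ≤ 1 :=
      (h3.eventually (eventually_lt_nhds (zero_lt_one))).mono (fun n hn => hn.le)
    rw [← eventually_atTop]
    filter_upwards [h2, h4, eventually_ge_atTop 1] with n hn hn4 hn1
    have hnp : (0:ℝ) < n := by exact_mod_cast hn1
    have hn1' : (1:ℝ) ≤ n := by exact_mod_cast hn1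
    refine hn.2.trans ?_
    rw [hv]
    have e1 : (-(3 / 2 + 1 / 2) : ℝ) = -2 := by norm_num
    rw [e1]
    have h5 : (n : ℝ) ^ (-d) * r ^ (2 * n) ≤ (n : ℝ) ^ (-2 : ℝ) := by
      have h6 : (n : ℝ) ^ (-d) ≤ (n : ℝ) ^ (-2 : ℝ) * (n : ℝ) ^ k := by
        rw [← Real.rpow_natCast, ← Real.rpow_add hnp]
        apply Real.rpow_le_rpow_of_exponent_le hn1'
        linarith
      calc (n : ℝ) ^ (-d) * r ^ (2 * n) ≤ ((n : ℝ) ^ (-2 : ℝ) * (n : ℝ) ^ k) * r ^ (2 * n) := by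
            gcongr
        _ = (n : ℝ) ^ (-2 : ℝ) * ((n : ℝ) ^ k * (r ^ 2) ^ n) := by rw [pow_mul]; ring
        _ ≤ (n : ℝ) ^ (-2 : ℝ) * 1 := by gcongr
        _ = _ := mul_one _
    calc 2 * (c * (n : ℝ) ^ (-d) * r ^ (2 * n)) = 2 * c * ((n : ℝ) ^ (-d) * r ^ (2 * n)) := by ring
      _ ≤ 2 * c * (n : ℝ) ^ (-2 : ℝ) := by gcongr
  · subst hr1
    rcases le_or_gt d (3 / 2) with hd | hd
    · apply caseI hb hsum hw
      refine ⟨c / 2, by positivity, ?_⟩
      rw [← eventually_atTop]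
      filter_upwards [h2, eventually_ge_atTop 1] with n hn hn1
      have hn1' : (1:ℝ) ≤ n := by exact_mod_cast hn1
      refine le_trans ?_ hn.1
      rw [hv]
      simp only [one_pow, mul_one]
      have : (n : ℝ) ^ (-(3 / 2) : ℝ) ≤ (n : ℝ) ^ (-d) := by
        apply Real.rpow_le_rpow_of_exponent_le hn1'
        linarith
      nlinarith
    · apply caseII hb hsum hw
      refine ⟨2 * c, min (d - 3 / 2) (1 / 2), ?_, min_le_right _ _, ?_⟩
      · apply lt_min <;> linarith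
      rw [← eventually_atTop]
      filter_upwards [h2, eventually_ge_atTop 1] with n hn hn1
      have hn1' : (1:ℝ) ≤ n := by exact_mod_cast hn1
      refine hn.2.trans ?_
      rw [hv]
      simp only [one_pow, mul_one]
      have : (n : ℝ) ^ (-d) ≤ (n : ℝ) ^ (-(3 / 2 + min (d - 3 / 2) (1 / 2)) : ℝ) := by
        apply Real.rpow_le_rpow_of_exponent_le hn1'
        have := min_le_left (d - 3 / 2) (1 / 2)
        linarith
      nlinarith
  · -- exponential growth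
    apply caseI hb hsum hw
    refine ⟨c / 2, by positivity, ?_⟩
    have hq : |(r ^ 2)⁻¹| < 1 := by
      rw [abs_of_nonneg (by positivity)]
      apply inv_lt_one_of_one_lt₀
      nlinarith
    obtain ⟨k, hk⟩ := exists_nat_gt (d - 3 / 2)
    have h3 := tendsto_pow_const_mul_const_pow_of_abs_lt_one k hq
    have h4 : ∀ᶠ n : ℕ in atTop, (n : ℝ) ^ k * ((r ^ 2)⁻¹) ^ n ≤ 1 :=
      (h3.eventually (eventually_lt_nhds (zero_lt_one))).mono (fun n hn => hn.le)
    rw [← eventually_atTop]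
    filter_upwards [h2, h4, eventually_ge_atTop 1] with n hn hn4 hn1
    have hnp : (0:ℝ) < n := by exact_mod_cast hn1
    have hn1' : (1:ℝ) ≤ n := by exact_mod_cast hn1
    refine le_trans ?_ hn.1
    rw [hv]
    have h5 : (n : ℝ) ^ (-(3 / 2) : ℝ) ≤ (n : ℝ) ^ (-d) * r ^ (2 * n) := by
      have h6 : (n : ℝ) ^ (-(3 / 2) : ℝ) ≤ (n : ℝ) ^ (-d) * (n : ℝ) ^ k := by
        rw [← Real.rpow_natCast, ← Real.rpow_add hnp]
        apply Real.rpow_le_rpow_of_exponent_le hn1'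
        linarith
      have h7 : (n : ℝ) ^ k ≤ r ^ (2 * n) := by
        rw [inv_pow, ← div_eq_mul_inv, div_le_one (by positivity), ← pow_mul] at hn4
        exact hn4
      exact h6.trans (by gcongr)
    have := mul_le_mul_of_nonneg_left h5 hc.le
    linarith

end

end Pool.Agent.U131.RD
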