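import Pool.Agent.U131.RD.Ser

open Set Filter Topology Monoid

namespace Pool.Agent.U131.RD

open Pool.Agent.Helper509.RD

/-- weights -/
noncomputable def al (i : Bool) : ℝ := if i then 1 / (1 + κ) else κ / (1 + κ)

/-- measures on the factors -/
noncomputable def nuF (i : Bool) : A →₀ ℝ := if i then nuA else nuB

/-- the measure on the free product -/
noncomputable def nu : Gm →₀ ℝ := nuG al nuF

lemma al_nonneg (i : Bool) : 0 ≤ al i := by
  have := κ_pos
  unfold al
  split_ifs <;> positivity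

lemma al_sum : al true + al false = 1 := by
  have := κ_pos
  unfold al
  simp only [if_true, Bool.false_eq_true, if_false]
  field_simp

lemma nuF_nonneg (i : Bool) (x : A) : 0 ≤ nuF i x := by
  unfold nuF
  split_ifs
  · exact nuA_nonneg x
  · exact nuB_nonneg x

lemma nuF_sy (i : Bool) : Sy (nuF i) := by
  unfold nuF
  split_ifs
  · exact nuA_sy
  · exact nuB_sy

lemma nuF_mass (i : Bool) : (nuF i).sum (fun _ a => a) = 1 := by
  unfold nuF
  split_ifs
  · exact nuA_mass
  · exact nuB_mass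

lemma nu_nonneg (x : Gm) : 0 ≤ nu x := by
  classical
  have h : ∀ i, 0 ≤ ((nuF i).mapDomain (CoprodI.of (M := MM) (i := i))) x := by
    intro i
    unfold Finsupp.mapDomain Finsupp.sum
    rw [Finsupp.finset_sum_apply]
    apply Finset.sum_nonneg
    intro y _
    rw [Finsupp.single_apply]
    split_ifs
    · exact nuF_nonneg i y
    · exact le_rfl
  unfold nu nuG
  rw [Finsupp.add_apply, Finsupp.smul_apply, Finsupp.smul_apply, smul_eq_mul, smul_eq_mul]
  have := al_nonneg true
  have := al_nonneg false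
  have := h true
  have := h false
  positivity

lemma nu_sym (x : Gm) : nu x⁻¹ = nu x := by
  apply Sy.apply
  unfold nu nuG
  apply Sy.add
  · exact ((nuF_sy true).map (CoprodI.of (M := MM) (i := true))).smul _
  · exact ((nuF_sy false).map (CoprodI.of (M := MM) (i := false))).smul _

lemma nu_mass : nu.sum (fun _ a => a) = 1 := by
  have h : ∀ i, conv ((nuF i).mapDomain (CoprodI.of (M := MM) (i := i))) (fun _ => 1) (1 : Gm) = 1 := by
    intro i
    rw [← mass_conv, Finsupp.sum_mapDomain_index (by simp) (by intros; ring)]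
    exact nuF_mass i
  rw [mass_conv nu 1]
  unfold nu
  rw [conv_nuG, h, h, mul_one, mul_one, al_sum]

/-- the functions on the factors -/
noncomputable def Fw (w : ℝ) (s : Σ i, MM i) : ℝ := if s.1 then FA w s.2 else FB (ra w) s.2

lemma Fw_true (w : ℝ) (x : A) : Fw w ⟨true, x⟩ = FA w x := by simp [Fw]
lemma Fw_false (w : ℝ) (x : A) : Fw w ⟨false, x⟩ = FB (ra w) x := by simp [Fw]

/-- the eigenvalue -/
noncomputable def lam (w : ℝ) : ℝ := Z w / (1 + κ)

lemma lam_pos {w : ℝ} (h0 : 0 < w) (h1 : w ≤ 1) : 0 < lam w := by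
  have := κ_pos
  have := Z_ge h0 h1
  unfold lam
  positivity

/-- the Green function candidate -/
noncomputable def hw (w : ℝ) (x : Gm) : ℝ := Phi w * HH (Fw w) x

lemma hw_eq {w : ℝ} (h0 : 0 < w) (h1 : w ≤ 1) (x : Gm) :
    conv nu (hw w) x = lam w * hw w x - lam w * dl x := by
  have hκ := κ_pos
  have hg := one_le_g h0.le h1
  have hr := ra_pos h0 h1
  have hr1 := ra_lt_one w
  have hyy := ra_inv h0 h1
  have hq : 0 < 1 - ra w ^ 2 := by nlinarith
  have key := ansatz (α := al) (ν := nuF) (F := Fw w)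
    (by
      intro i
      cases i
      · rw [Fw_false, FB_one]
      · rw [Fw_true, FA_one h0.le h1])
    (c := fun i => if i then 1 / w else (1 + ra w ^ 2) / (2 * ra w))
    (m := fun i => if i then (g w - 1) / (w * g w) else ra w) (lam := lam w)
    (by
      intro i a ha
      cases i
      · simp only [Fw_false, nuF, Bool.false_eq_true, if_false]
        exact FB_conv hr ha
      · simp only [Fw_true, nuF, if_true]
        have := FA_eq h0.le h1 ha
        rw [eq_comm, one_div, inv_mul_eq_iff_eq_mul₀ h0.ne']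
        exact this)
    (by
      intro i
      cases i
      · simp only [Fw_false, nuF, Bool.false_eq_true, if_false]
        exact FB_conv_one
      · simp only [Fw_true, nuF, if_true]
        exact FA_conv_one h0 h1)
    (by
      intro i
      cases i
      · simp only [al, lam, Z, Bool.not_false, if_true, Bool.false_eq_true, if_false]
        have e : κ * w * g w * (1 - ra w ^ 2) = 2 * ra w := by
          rw [div_eq_iff hq.ne'] at hyy
          rw [hyy]
          rfl
        field_simp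
        linear_combination (1 : ℝ) * e
      · simp only [al, lam, Z, Bool.not_true, if_true, Bool.false_eq_true, if_false]
        field_simp)
    x
  simp only [if_true, Bool.false_eq_true, if_false] at key
  unfold hw
  rw [conv_smul]
  have hn : nu = nuG al nuF := rfl
  rw [hn, key]
  have hPhi : Phi w * (lam w - (al true * ((g w - 1) / (w * g w)) + al false * ra w)) = lam w := by
    simp only [al, lam, Z, Phi, if_true, Bool.false_eq_true, if_false]
    field_simp
    ring
  linear_combination (-dl x) * hPhi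

lemma HH_nonneg {F : (Σ i, MM i) → ℝ} (hF : ∀ s, 0 ≤ F s) (x : Gm) : 0 ≤ HH F x := by
  unfold HH
  apply List.prod_nonneg
  intro a ha
  rw [List.mem_map] at ha
  obtain ⟨s, _, rfl⟩ := ha
  exact hF s

lemma prod_mono {F G : (Σ i, MM i) → ℝ} (hF : ∀ s, 0 ≤ F s) (hFG : ∀ s, F s ≤ G s)
    (l : List (Σ i, MM i)) : 0 ≤ (l.map F).prod ∧ (l.map F).prod ≤ (l.map G).prod := by
  induction l with
  | nil => simp
  | cons s l ih =>
    rw [List.map_cons, List.map_cons, List.prod_cons, List.prod_cons]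
    exact ⟨mul_nonneg (hF s) ih.1, mul_le_mul (hFG s) ih.2 ih.1 ((hF s).trans (hFG s))⟩

lemma Fw_nonneg {w : ℝ} (h0 : 0 < w) (h1 : w ≤ 1) (s : Σ i, MM i) : 0 ≤ Fw w s := by
  unfold Fw
  split_ifs
  · exact FA_nonneg h0.le h1 _
  · exact FB_nonneg (ra_pos h0 h1).le _

lemma hw_nonneg {w : ℝ} (h0 : 0 < w) (h1 : w ≤ 1) (x : Gm) : 0 ≤ hw w x :=
  mul_nonneg (Phi_pos h0 h1).le (HH_nonneg (Fw_nonneg h0 h1) x)

lemma hw_one (w : ℝ) : hw w 1 = Phi w := by
  unfold hw
  rw [HH_one, mul_one]

lemma hw_le {w : ℝ} (h0 : 0 < w) (h1 : w < 1) (x : Gm) :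
    hw w x ≤ (Phi w / Phi 1) * hw 1 x := by
  have hP := Phi_pos zero_lt_one (le_refl (1:ℝ))
  have hPw := Phi_pos h0 h1.le
  unfold hw
  have h2 : HH (Fw w) x ≤ HH (Fw 1) x := by
    unfold HH
    refine (prod_mono (Fw_nonneg h0 h1.le) (fun s => ?_) _).2
    unfold Fw
    split_ifs
    · exact FA_mono h0 h1 _
    · exact FB_mono (ra_pos h0 h1.le).le (ra_mono h0 h1.le le_rfl) _
  calc Phi w * HH (Fw w) x ≤ Phi w * HH (Fw 1) x := by gcongr
    _ = _ := by field_simp

/-- return probabilities -/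
noncomputable def un (n : ℕ) : ℝ := ((conv nu)^[n] dl) 1

lemma un_nonneg (n : ℕ) : 0 ≤ un n := iter_nonneg nu nu_nonneg dl_nonneg n 1

/-- identity for partial sums -/
lemma partial_eq {w : ℝ} (h0 : 0 < w) (h1 : w ≤ 1) (N : ℕ) :
    ∑ n ∈ Finset.range N, un n / lam w ^ n = Phi w - ((conv nu)^[N] (hw w)) 1 / lam w ^ N := by
  have hl := lam_pos h0 h1
  have h2 := iter_eq nu (hw_eq h0 h1) N 1
  rw [h2, hw_one, sub_div, mul_div_assoc, mul_comm (lam w ^ N), div_mul_cancel₀ _ (by positivity),
    Finset.sum_div]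
  rw [sub_sub_cancel]
  apply Finset.sum_congr rfl
  intro n hn
  rw [Finset.mem_range] at hn
  have e : lam w ^ N = lam w ^ (N - n) * lam w ^ n := by rw [← pow_add]; congr 1; omega
  rw [e]
  unfold un
  field_simp

lemma partial_le (N : ℕ) : ∑ n ∈ Finset.range N, un n / lam 1 ^ n ≤ Phi 1 := by
  rw [partial_eq zero_lt_one le_rfl]
  have h1 := iter_nonneg nu nu_nonneg (hw_nonneg zero_lt_one le_rfl) N 1
  have := lam_pos zero_lt_one (le_refl (1:ℝ))
  have : 0 ≤ ((conv nu)^[N] (hw 1)) 1 / lam 1 ^ N := by positivity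
  linarith

lemma hasSum_w {w : ℝ} (h0 : 0 < w) (h1 : w < 1) (hZ : Z 1 < Z w) :
    HasSum (fun n => un n / lam w ^ n) (Phi w) := by
  have hl := lam_pos h0 h1.le
  have hl1 := lam_pos zero_lt_one (le_refl (1:ℝ))
  have hκ := κ_pos
  have hlt : lam 1 < lam w := by
    unfold lam
    gcongr
  have hP := Phi_pos zero_lt_one (le_refl (1:ℝ))
  have hPw := Phi_pos h0 h1.le
  rw [hasSum_iff_tendsto_nat_of_nonneg (fun n => div_nonneg (un_nonneg n) (by positivity))]
  have hT : Tendsto (fun N : ℕ => ((conv nu)^[N] (hw w)) 1 / lam w ^ N) atTop (𝓝 0) := by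
    have hup : ∀ N : ℕ, ((conv nu)^[N] (hw w)) 1 / lam w ^ N ≤ Phi w * (lam 1 / lam w) ^ N := by
      intro N
      rw [div_le_iff₀ (by positivity)]
      have h2 : ((conv nu)^[N] (hw w)) 1 ≤ ((conv nu)^[N] (fun x => (Phi w / Phi 1) * hw 1 x)) 1 :=
        iter_mono nu nu_nonneg (fun x => hw_le h0 h1 x) N 1
      rw [iter_smul] at h2
      have h3 : ((conv nu)^[N] (hw 1)) 1 ≤ lam 1 ^ N * hw 1 1 := by
        apply iter_le nu nu_nonneg hl1.le
        intro x
        rw [hw_eq zero_lt_one le_rfl]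
        have := dl_nonneg x
        nlinarith
      rw [hw_one] at h3
      calc ((conv nu)^[N] (hw w)) 1 ≤ Phi w / Phi 1 * (lam 1 ^ N * Phi 1) := by
            refine h2.trans ?_
            gcongr
        _ = Phi w * (lam 1 / lam w) ^ N * lam w ^ N := by
            rw [div_pow]
            field_simp
    have hlim : Tendsto (fun N : ℕ => Phi w * (lam 1 / lam w) ^ N) atTop (𝓝 0) := by
      have : Tendsto (fun N : ℕ => (lam 1 / lam w) ^ N) atTop (𝓝 0) := by
        apply tendsto_pow_atTop_nhds_zero_of_lt_one (by positivity)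
        rw [div_lt_one hl]
        exact hlt
      have h4 := this.const_mul (Phi w)
      rwa [mul_zero] at h4
    refine squeeze_zero (fun N => ?_) hup hlim
    exact div_nonneg (iter_nonneg nu nu_nonneg (hw_nonneg h0 h1.le) N 1) (by positivity)
  have h5 := hT.const_sub (Phi w)
  rw [sub_zero] at h5
  refine h5.congr (fun N => ?_)
  rw [partial_eq h0 h1.le]

/-! ### parity -/

/-- the sign on a factor -/
def sgA : A →* ℤˣ where
  toFun x := (-1 : ℤˣ) ^ (Multiplicative.toAdd x 0)
  map_one' := by simp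
  map_mul' x y := by
    simp only [toAdd_mul, Pi.add_apply]
    exact zpow_add _ _ _

/-- the sign on the free product -/
def sgG : Gm →* ℤˣ := CoprodI.lift (M := MM) (fun _ => sgA)

lemma sgG_of (i : Bool) (x : A) : sgG (CoprodI.of (M := MM) (i := i) x) = sgA x := by
  unfold sgG
  exact CoprodI.lift_of (M := MM) _ x

/-- real valued sign -/
noncomputable def sR (x : Gm) : ℝ := ((sgG x : ℤ) : ℝ)

lemma sR_mul (x y : Gm) : sR (x * y) = sR x * sR y := by
  unfold sR
  rw [map_mul]
  push_cast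
  rfl

lemma sR_one : sR 1 = 1 := by
  unfold sR
  simp

lemma sgA_sg (ε : Fin 6 → Bool) : sgA (sg ε) = -1 := by
  unfold sgA sg
  simp only [MonoidHom.coe_mk, OneHom.coe_mk, toAdd_ofAdd]
  cases ε 0 <;> simp

lemma sgA_ee : sgA ee = -1 := by
  unfold sgA ee
  simp

lemma sR_inv_sg (ε : Fin 6 → Bool) : sR (CoprodI.of (M := MM) (i := true) (sg ε))⁻¹ = -1 := by
  unfold sR
  rw [map_inv, sgG_of, sgA_sg]
  simp

lemma sR_inv_ee : sR (CoprodI.of (M := MM) (i := false) ee)⁻¹ = -1 := by
  unfold sR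
  rw [map_inv, sgG_of, sgA_ee]
  simp

lemma sR_ee : sR (CoprodI.of (M := MM) (i := false) ee) = -1 := by
  unfold sR
  rw [sgG_of, sgA_ee]
  simp

lemma conv_mapA (h : Gm → ℝ) (x : Gm) :
    conv ((nuF true).mapDomain (CoprodI.of (M := MM) (i := true))) h x =
    ∑ ε : Fin 6 → Bool, 1 / 64 * h ((CoprodI.of (M := MM) (i := true) (sg ε))⁻¹ * x) := by
  rw [conv_eq]
  simp only [nuF, if_true]
  unfold nuA
  rw [Finsupp.mapDomain_finset_sum, map_sum]
  simp_rw [Finsupp.mapDomain_single, convHom_single]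

lemma conv_mapB (h : Gm → ℝ) (x : Gm) :
    conv ((nuF false).mapDomain (CoprodI.of (M := MM) (i := false))) h x =
    1 / 2 * h ((CoprodI.of (M := MM) (i := false) ee)⁻¹ * x) +
    1 / 2 * h (CoprodI.of (M := MM) (i := false) ee * x) := by
  rw [conv_eq]
  simp only [nuF, Bool.false_eq_true, if_false]
  unfold nuB
  rw [Finsupp.mapDomain_add, map_add, Finsupp.mapDomain_single, Finsupp.mapDomain_single,
    convHom_single, convHom_single, map_inv, inv_inv]

lemma conv_sign (h : Gm → ℝ) (x : Gm) : conv nu (fun y => sR y * h y) x = -(sR x * conv nu h x) := by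
  unfold nu
  rw [conv_nuG, conv_nuG, conv_mapA, conv_mapB, conv_mapA, conv_mapB]
  simp_rw [sR_mul, sR_inv_sg, sR_inv_ee, sR_ee]
  have : ∑ ε : Fin 6 → Bool, 1 / 64 * (-1 * sR x * h ((CoprodI.of (M := MM) (i := true) (sg ε))⁻¹ * x)) =
      -(sR x * ∑ ε : Fin 6 → Bool, 1 / 64 * h ((CoprodI.of (M := MM) (i := true) (sg ε))⁻¹ * x)) := by
    rw [Finset.mul_sum, ← Finset.sum_neg_distrib]
    apply Finset.sum_congr rfl
    intro ε _
    ring
  rw [this]
  ring

lemma iter_sign (n : ℕ) (x : Gm) : sR x * ((conv nu)^[n] dl) x = (-1) ^ n * ((conv nu)^[n] dl) x := by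
  induction n generalizing x with
  | zero =>
    simp only [Function.iterate_zero, id_eq, pow_zero, one_mul]
    by_cases hx : x = 1
    · subst hx; rw [sR_one, one_mul]
    · rw [dl_ne hx, mul_zero]
  | succ n ih =>
    rw [Function.iterate_succ_apply']
    have h1 := conv_sign ((conv nu)^[n] dl) x
    have h2 : (fun y => sR y * ((conv nu)^[n] dl) y) = fun y => (-1) ^ n * ((conv nu)^[n] dl) y :=
      funext ih
    rw [h2, conv_smul] at h1
    rw [pow_succ]
    linarith

lemma un_odd (m : ℕ) : un (2 * m + 1) = 0 := by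
  have h := iter_sign (2 * m + 1) 1
  rw [sR_one, one_mul] at h
  have h2 : (-1 : ℝ) ^ (2 * m + 1) = -1 := Odd.neg_one_pow ⟨m, rfl⟩
  rw [h2] at h
  unfold un
  linarith

/-! ### the even part -/

/-- normalised return probabilities -/
noncomputable def bn (n : ℕ) : ℝ := un (2 * n) / lam 1 ^ (2 * n)

lemma bn_nonneg (n : ℕ) : 0 ≤ bn n := by
  have := lam_pos zero_lt_one (le_refl (1:ℝ))
  have := un_nonneg (2 * n)
  unfold bn
  positivity

lemma bn_sum (N : ℕ) : ∑ n ∈ Finset.range N, bn n ≤ Phi 1 := by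
  refine le_trans ?_ (partial_le (2 * N))
  have h : ∑ n ∈ Finset.range N, bn n = ∑ n ∈ Finset.range (2 * N), un n / lam 1 ^ n := by
    induction N with
    | zero => simp
    | succ N ih =>
      rw [Finset.sum_range_succ, ih]
      have : 2 * (N + 1) = 2 * N + 1 + 1 := by ring
      rw [this, Finset.sum_range_succ, Finset.sum_range_succ, un_odd, zero_div, add_zero]
      rfl
  rw [h]

lemma bn_hasSum : ∃ u0 : ℝ, 0 < u0 ∧ ∀ u, 0 < u → u < u0 →
    HasSum (fun n => bn n * (xx u) ^ n) (Phi (1 - u)) := by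
  obtain ⟨u1, hu1, hu12, hZl⟩ := Z_large 1
  refine ⟨u1, hu1, fun u h0 h1 => ?_⟩
  have hZ1 := hZl u h0 h1
  have hZlt : Z 1 < Z (1 - u) := by nlinarith [sq_pos_of_pos h0]
  have h2 := hasSum_w (w := 1 - u) (by linarith) (by linarith) hZlt
  have hl := lam_pos (w := 1 - u) (by linarith) (by linarith)
  have hl1 := lam_pos zero_lt_one (le_refl (1:ℝ))
  have hκ := κ_pos
  have hZp := Z_ge zero_lt_one (le_refl (1:ℝ))
  have hZp' := Z_ge (w := 1 - u) (by linarith) (by linarith)
  have hinj : Function.Injective (fun n : ℕ => 2 * n) := fun a b h => by simpa using h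
  have h3 := (hinj.hasSum_iff (f := fun n => un n / lam (1 - u) ^ n) (a := Phi (1 - u)) ?_).2 h2
  · have e : ((fun n => un n / lam (1 - u) ^ n) ∘ fun n => 2 * n) = fun n => bn n * (xx u) ^ n := by
      funext n
      simp only [Function.comp]
      have e1 : xx u = (lam 1 / lam (1 - u)) ^ 2 := by
        unfold xx lam
        congr 1
        field_simp
      rw [e1, ← pow_mul, div_pow]
      unfold bn
      field_simp
    rwa [e] at h3
  · intro n hn
    rcases Nat.even_or_odd' n with ⟨m, rfl | rfl⟩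
    · exact absurd ⟨m, rfl⟩ hn
    · rw [un_odd, zero_div]

end Pool.Agent.U131.RD
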